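import Pool.Agent.Work.MP_0d53be_an.Full.F.Gs

/-!
# F/Pair: almost periods come from pairs of good points (roles exchanged)

`pair_of`: let `w` be regular, `P = pm p (hull v t w)`, `T ⊆ hull v t w` a set with
`pm p (hull v t w \ T) ≤ η² P`, `0 < η < 1/16`, `s ≤ t`. Let `ζ, ζ + d ∈ win v w` with
`∑_u |kap ζ u - kap (ζ + d) u| ≤ 4 η`. Then there are `x, y ∈ T` with `|(y - x - d)_i| < 2^s`.

Proof. `mass p t ζ > 0`, `mass p t (ζ + d) > 0`, and `P ≤ 2 mass` at both (`mass_of_win`). The cell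
`u` at `ζ` is `{ζ - 2^s u - b : b ∈ box s}`; the cells, `u ∈ box (t - s)`, are disjoint, contained
in `{ζ - b' : b' ∈ box t} ⊆ hull v t w` (`box_sub_hull`; the bijection of `mass_split`). Let
`U₁` be the set of the `u` whose cell at `ζ` does not meet `T`. Then
`∑_{u ∈ U₁} kap ζ u = (∑_{u∈U₁} mass p s (ζ - 2^s u))/mass p t ζ ≤ pm (hull \ T)/mass p t ζ
 ≤ η² P / (P/2) = 2 η²`. In the same way `U₂` (cell at `ζ + d` does not meet `T`) has
`∑_{u∈U₂} kap (ζ+d) u ≤ 2 η²`, so `∑_{u∈U₂} kap ζ u ≤ 2 η² + 4 η`. Since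
`∑_u kap ζ u = 1 > 4 η² + 4 η` (`sum_kap`), some `u` is in neither. Take `x = ζ - 2^s u - b ∈ T`,
`y = ζ + d - 2^s u - b' ∈ T` with `b, b' ∈ box s`: `y - x - d = b - b'`.

`part_of` (the one sided version, for coverage): with the same `ζ`, `d` and
`∑_u |kap ζ u - kap (ζ + d) u| ≤ 2 η`: the set `N` of the `x ∈ core v t w` with no `y ∈ A` such that
`|(y - x - d)_i| < 2^s` satisfies `pm p N ≤ 2 η P`.
Proof: `x ∈ core` lies in a cell `u` at `ζ` (`core_sub_box`), and if the cell `u` at `ζ + d`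
contained a point `y ∈ A` then `|(y - x - d)_i| < 2^s`. So for `x ∈ N` the cell `u` has
`mass p s (ζ + d - 2^s u) = 0`, `kap (ζ+d) u = 0`, and
`pm p N ≤ ∑_{u : kap (ζ+d) u = 0} mass p s (ζ - 2^s u) = mass p t ζ ∑_{such u} kap ζ u
 ≤ mass p t ζ * 2 η ≤ 2 η P` (`mass p t ζ ≤ P` because the box is in the hull).
-/

set_option autoImplicit false

namespace Pool.Agent.Work.MP_0d53be_an.Full

open scoped Pointwise

variable {A : Finset G} {p : G → ℝ}

private theorem Pair_box {s t : ℕ} (hst : s ≤ t) {u b : G} (hu : u ∈ box (t - s)) (hb : b ∈ box s) :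
    (2 : ℤ) ^ s • u + b ∈ box t := by
  rw [mem_box] at *
  obtain ⟨⟨u1, u2⟩, u3, u4⟩ := hu
  obtain ⟨⟨b1, b2⟩, b3, b4⟩ := hb
  have hpow : (2 : ℤ) ^ t = 2 ^ s * 2 ^ (t - s) := by
    rw [← pow_add, Nat.add_sub_cancel' hst]
  have hs : (0 : ℤ) < 2 ^ s := by positivity
  simp only [Prod.fst_add, Prod.snd_add, Prod.smul_fst, Prod.smul_snd, smul_eq_mul]
  rw [hpow]
  refine ⟨⟨by positivity, ?_⟩, by positivity, ?_⟩
  · nlinarith
  · nlinarith

private theorem Pair_mass_le {q : G → ℝ} (hq : ∀ x, 0 ≤ q x) {t : ℕ} {ζ : G} {S : Finset G}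
    (h : ∀ b ∈ box t, q (ζ - b) ≠ 0 → ζ - b ∈ S) : mass q t ζ ≤ ∑ x ∈ S, q x := by
  classical
  unfold mass
  have h1 : ∑ b ∈ box t, q (ζ - b) = ∑ x ∈ (box t).image (fun b => ζ - b), q x := by
    rw [Finset.sum_image]
    intro a _ b _ hab
    exact sub_right_injective hab
  rw [h1, ← Finset.sum_filter_ne_zero]
  refine Finset.sum_le_sum_of_subset_of_nonneg ?_ (fun x _ _ => hq x)
  intro x hx
  rw [Finset.mem_filter, Finset.mem_image] at hx
  obtain ⟨⟨b, hb, rfl⟩, hx0⟩ := hx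
  exact h b hb hx0

private theorem Pair_pm_le {q : G → ℝ} (hq : ∀ x, 0 ≤ q x) {t : ℕ} {ζ : G} {S : Finset G}
    (h : ∀ x ∈ S, ζ - x ∈ box t) : ∑ x ∈ S, q x ≤ mass q t ζ := by
  classical
  unfold mass
  have h1 : ∑ x ∈ S, q x = ∑ b ∈ S.image (fun x => ζ - x), q (ζ - b) := by
    rw [Finset.sum_image]
    · refine Finset.sum_congr rfl fun x _ => ?_
      rw [sub_sub_cancel]
    · intro a _ b _ hab
      exact sub_right_injective hab
  rw [h1]
  refine Finset.sum_le_sum_of_subset_of_nonneg ?_ (fun x _ _ => hq _)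
  intro b hb
  rw [Finset.mem_image] at hb
  obtain ⟨x, hx, rfl⟩ := hb
  exact h x hx

private theorem Pair_cells (hp : Prb A p) {s t : ℕ} (hst : s ≤ t) {ζ : G} {S U : Finset G}
    (hU : U ⊆ box (t - s)) (h : ∀ u ∈ U, ∀ b ∈ box s, ζ - (2 : ℤ) ^ s • u - b ∈ S) :
    ∑ u ∈ U, mass p s (ζ - (2 : ℤ) ^ s • u) ≤ pm p S := by
  classical
  have hq : ∀ x, 0 ≤ (if x ∈ S then p x else 0) := fun x => by
    split_ifs
    · exact hp.nonneg x
    · exact le_rfl
  have h1 : ∀ u ∈ U, mass p s (ζ - (2 : ℤ) ^ s • u) =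
      mass (fun x => if x ∈ S then p x else 0) s (ζ - (2 : ℤ) ^ s • u) := by
    intro u hu
    unfold mass
    refine Finset.sum_congr rfl fun b hb => ?_
    exact (if_pos (h u hu b hb)).symm
  rw [Finset.sum_congr rfl h1]
  calc ∑ u ∈ U, mass (fun x => if x ∈ S then p x else 0) s (ζ - (2 : ℤ) ^ s • u)
      ≤ ∑ u ∈ box (t - s), mass (fun x => if x ∈ S then p x else 0) s (ζ - (2 : ℤ) ^ s • u) :=
        Finset.sum_le_sum_of_subset_of_nonneg hU (fun u _ _ => Finset.sum_nonneg (fun b _ => hq _))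
    _ = mass (fun x => if x ∈ S then p x else 0) t ζ := (mass_split _ hst ζ).symm
    _ ≤ ∑ x ∈ S, (if x ∈ S then p x else 0) := Pair_mass_le hq (fun b _ hb => by
        by_contra hn
        exact hb (if_neg hn))
    _ = pm p S := Finset.sum_congr rfl fun x hx => if_pos hx

/-- the share of the cells which do not meet `T` -/
private theorem Pair_share (hp : Prb A p) {s t v : ℕ} (hst : s ≤ t) {η : ℝ}
    {w ζ : G} (hr : Reg p v t w) {T : Finset G} [DecidableEq G]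
    (hTm : pm p (hull v t w \ T) ≤ η ^ 2 * pm p (hull v t w))
    (h1 : ζ ∈ win v w) (U : Finset G) (hU : U ⊆ box (t - s))
    (h : ∀ u ∈ U, ∀ b ∈ box s, ζ - (2 : ℤ) ^ s • u - b ∉ T) :
    ∑ u ∈ U, kap p s t ζ u ≤ 2 * η ^ 2 := by
  obtain ⟨hm, hP⟩ := mass_of_win hp hr h1
  have h2 : ∑ u ∈ U, kap p s t ζ u = (∑ u ∈ U, mass p s (ζ - (2 : ℤ) ^ s • u)) / mass p t ζ := by
    rw [Finset.sum_div]
    rfl
  rw [h2, div_le_iff₀ hm]
  have h3 : ∑ u ∈ U, mass p s (ζ - (2 : ℤ) ^ s • u) ≤ pm p (hull v t w \ T) := by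
    refine Pair_cells hp hst hU fun u hu b hb => ?_
    rw [Finset.mem_sdiff]
    refine ⟨?_, h u hu b hb⟩
    rw [sub_sub]
    exact box_sub_hull h1 (Pair_box hst (hU hu) hb)
  have h4 : η ^ 2 * pm p (hull v t w) ≤ η ^ 2 * (2 * mass p t ζ) :=
    mul_le_mul_of_nonneg_left hP (sq_nonneg η)
  linarith

open Classical in
theorem pair_of (hp : Prb A p) {s t v : ℕ} (hst : s ≤ t) {η : ℝ} (hη : 0 < η) (h16 : η < 1 / 16)
    {w ζ d : G} (hr : Reg p v t w) {T : Finset G}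
    (hTm : pm p (hull v t w \ T) ≤ η ^ 2 * pm p (hull v t w))
    (h1 : ζ ∈ win v w) (h2 : ζ + d ∈ win v w)
    (hk : ∑ u ∈ box (t - s), |kap p s t ζ u - kap p s t (ζ + d) u| ≤ 4 * η) :
    ∃ x ∈ T, ∃ y ∈ T, |(y - x - d).1| < 2 ^ s ∧ |(y - x - d).2| < 2 ^ s := by
  obtain ⟨hm, -⟩ := mass_of_win hp hr h1
  set U₁ : Finset G := (box (t - s)).filter (fun u => ∀ b ∈ box s, ζ - (2 : ℤ) ^ s • u - b ∉ T)
    with hU₁
  set U₂ : Finset G :=
    (box (t - s)).filter (fun u => ∀ b ∈ box s, ζ + d - (2 : ℤ) ^ s • u - b ∉ T) with hU₂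
  have k1 : ∑ u ∈ U₁, kap p s t ζ u ≤ 2 * η ^ 2 :=
    Pair_share hp hst hr hTm h1 U₁ (Finset.filter_subset _ _) (fun u hu =>
      (Finset.mem_filter.1 hu).2)
  have k2 : ∑ u ∈ U₂, kap p s t (ζ + d) u ≤ 2 * η ^ 2 :=
    Pair_share hp hst hr hTm h2 U₂ (Finset.filter_subset _ _) (fun u hu =>
      (Finset.mem_filter.1 hu).2)
  have k3 : ∑ u ∈ U₂, kap p s t ζ u ≤ 2 * η ^ 2 + 4 * η := by
    have k4 : ∑ u ∈ U₂, |kap p s t ζ u - kap p s t (ζ + d) u| ≤ 4 * η :=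
      (Finset.sum_le_sum_of_subset_of_nonneg (Finset.filter_subset _ _)
        (fun u _ _ => abs_nonneg _)).trans hk
    have k5 : ∑ u ∈ U₂, kap p s t ζ u ≤
        ∑ u ∈ U₂, (kap p s t (ζ + d) u + |kap p s t ζ u - kap p s t (ζ + d) u|) := by
      refine Finset.sum_le_sum fun u _ => ?_
      linarith [le_abs_self (kap p s t ζ u - kap p s t (ζ + d) u)]
    rw [Finset.sum_add_distrib] at k5
    linarith
  have k6 := sum_kap p hst hm.ne'
  have k7 : ∃ u ∈ box (t - s), u ∉ U₁ ∧ u ∉ U₂ := by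
    by_contra hcon
    push Not at hcon
    have k8 : ∑ u ∈ box (t - s), kap p s t ζ u ≤ ∑ u ∈ U₁ ∪ U₂, kap p s t ζ u := by
      refine Finset.sum_le_sum_of_subset_of_nonneg ?_ (fun u _ _ => kap_nonneg hp s t ζ u)
      intro u hu
      rw [Finset.mem_union]
      by_cases hu1 : u ∈ U₁
      · exact Or.inl hu1
      · exact Or.inr (hcon u hu hu1)
    have k9 : ∑ u ∈ U₁ ∪ U₂, kap p s t ζ u ≤ ∑ u ∈ U₁, kap p s t ζ u + ∑ u ∈ U₂, kap p s t ζ u := by
      rw [← Finset.sum_union_inter]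
      have : 0 ≤ ∑ u ∈ U₁ ∩ U₂, kap p s t ζ u :=
        Finset.sum_nonneg fun u _ => kap_nonneg hp s t ζ u
      linarith
    nlinarith
  obtain ⟨u, hu, hn1, hn2⟩ := k7
  have hx : ∃ b ∈ box s, ζ - (2 : ℤ) ^ s • u - b ∈ T := by
    by_contra hcon
    push Not at hcon
    exact hn1 (Finset.mem_filter.2 ⟨hu, hcon⟩)
  have hy : ∃ b ∈ box s, ζ + d - (2 : ℤ) ^ s • u - b ∈ T := by
    by_contra hcon
    push Not at hcon
    exact hn2 (Finset.mem_filter.2 ⟨hu, hcon⟩)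
  obtain ⟨b, hb, hx⟩ := hx
  obtain ⟨b', hb', hy⟩ := hy
  refine ⟨_, hx, _, hy, ?_⟩
  have heq : ζ + d - (2 : ℤ) ^ s • u - b' - (ζ - (2 : ℤ) ^ s • u - b) - d = b - b' := by abel
  rw [heq]
  rw [mem_box] at hb hb'
  obtain ⟨⟨c1, c2⟩, c3, c4⟩ := hb
  obtain ⟨⟨d1, d2⟩, d3, d4⟩ := hb'
  rw [Prod.fst_sub, Prod.snd_sub, abs_lt, abs_lt]
  refine ⟨⟨by linarith, by linarith⟩, by linarith, by linarith⟩

open Classical in
theorem part_of (hp : Prb A p) {s t v : ℕ} (hst : s ≤ t) {η : ℝ} (hη : 0 < η)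
    {w ζ d : G} (h1 : ζ ∈ win v w) (h2 : ζ + d ∈ win v w) (hr : Reg p v t w)
    (hk : ∑ u ∈ box (t - s), |kap p s t ζ u - kap p s t (ζ + d) u| ≤ 2 * η) :
    pm p ((core v t w).filter (fun x => ¬ ∃ y ∈ A, |(y - x - d).1| < 2 ^ s ∧
      |(y - x - d).2| < 2 ^ s)) ≤ 2 * η * pm p (hull v t w) := by
  obtain ⟨hm, -⟩ := mass_of_win hp hr h1
  obtain ⟨hm2, -⟩ := mass_of_win hp hr h2
  set N : Finset G := (core v t w).filter (fun x => ¬ ∃ y ∈ A, |(y - x - d).1| < 2 ^ s ∧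
      |(y - x - d).2| < 2 ^ s) with hN
  have hq : ∀ x, 0 ≤ (if x ∈ N then p x else 0) := fun x => by
    split_ifs
    · exact hp.nonneg x
    · exact le_rfl
  have hmP : mass p t ζ ≤ pm p (hull v t w) :=
    Pair_mass_le hp.nonneg (fun b hb _ => box_sub_hull h1 hb)
  -- the cells
  have hcell : ∀ u ∈ box (t - s),
      mass (fun x => if x ∈ N then p x else 0) s (ζ - (2 : ℤ) ^ s • u) ≤
        mass p t ζ * |kap p s t ζ u - kap p s t (ζ + d) u| := by
    intro u hu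
    by_cases h0 : ∃ b ∈ box s, ζ - (2 : ℤ) ^ s • u - b ∈ N
    · obtain ⟨b, hb, hbN⟩ := h0
      have hz : mass p s (ζ + d - (2 : ℤ) ^ s • u) = 0 := by
        unfold mass
        refine Finset.sum_eq_zero fun b' hb' => ?_
        by_contra hne
        have hyA : ζ + d - (2 : ℤ) ^ s • u - b' ∈ A := by
          by_contra hnA
          exact hne (hp.supp _ hnA)
        refine (Finset.mem_filter.1 hbN).2 ⟨_, hyA, ?_⟩
        have heq : ζ + d - (2 : ℤ) ^ s • u - b' - (ζ - (2 : ℤ) ^ s • u - b) - d = b - b' := by abel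
        rw [heq]
        rw [mem_box] at hb hb'
        obtain ⟨⟨c1, c2⟩, c3, c4⟩ := hb
        obtain ⟨⟨d1, d2⟩, d3, d4⟩ := hb'
        rw [Prod.fst_sub, Prod.snd_sub, abs_lt, abs_lt]
        refine ⟨⟨by linarith, by linarith⟩, by linarith, by linarith⟩
      have hk0 : kap p s t (ζ + d) u = 0 := by
        unfold kap
        rw [hz, zero_div]
      rw [hk0, sub_zero, abs_of_nonneg (kap_nonneg hp s t ζ u)]
      have hk1 : mass p t ζ * kap p s t ζ u = mass p s (ζ - (2 : ℤ) ^ s • u) := by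
        unfold kap
        rw [mul_div_cancel₀ _ hm.ne']
      rw [hk1]
      unfold mass
      refine Finset.sum_le_sum fun b _ => ?_
      dsimp only
      split_ifs
      · exact le_rfl
      · exact hp.nonneg _
    · push Not at h0
      have hz : mass (fun x => if x ∈ N then p x else 0) s (ζ - (2 : ℤ) ^ s • u) = 0 := by
        unfold mass
        exact Finset.sum_eq_zero fun b hb => if_neg (h0 b hb)
      rw [hz]
      exact mul_nonneg hm.le (abs_nonneg _)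
  calc pm p N = ∑ x ∈ N, (if x ∈ N then p x else 0) := by
        unfold pm
        exact Finset.sum_congr rfl fun x hx => (if_pos hx).symm
    _ ≤ mass (fun x => if x ∈ N then p x else 0) t ζ :=
        Pair_pm_le hq fun x hx => core_sub_box h1 (Finset.mem_filter.1 hx).1
    _ = ∑ u ∈ box (t - s), mass (fun x => if x ∈ N then p x else 0) s (ζ - (2 : ℤ) ^ s • u) :=
        mass_split _ hst ζ
    _ ≤ ∑ u ∈ box (t - s), mass p t ζ * |kap p s t ζ u - kap p s t (ζ + d) u| :=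
        Finset.sum_le_sum hcell
    _ = mass p t ζ * ∑ u ∈ box (t - s), |kap p s t ζ u - kap p s t (ζ + d) u| := by
        rw [Finset.mul_sum]
    _ ≤ pm p (hull v t w) * (2 * η) :=
        mul_le_mul hmP hk (Finset.sum_nonneg fun u _ => abs_nonneg _) (hm.le.trans hmP)
    _ = 2 * η * pm p (hull v t w) := mul_comm _ _

end Pool.Agent.Work.MP_0d53be_an.Full
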