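import Pool.Agent.Work.MP_0d53be_an.Full.F.Shift
import Pool.Agent.Work.MP_0d53be_an.Full.F.Pair

/-!
# F/AG: the differences of good points form an approximate local group

`toC_norm`: `|z.1|, |z.2| ≤ ‖toC z‖` and `‖toC z‖ ≤ |z.1| + |z.2|`,
`‖toC z‖² = z.1² + z.2²`; `toC` is additive.

`app_grp`: let `(w, w')` be a good pair, `0 < η < 1/16`, `s ≤ t`, `s + 3 ≤ v`. Then
`D = DC A p s t v η w w'` is an `AppGrp` with tolerance `3 * 2^s` and radius `2^v / 8`.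

* finite: image of `Gs × Gs`. zero: `Gs` is not empty, since
  `pm (hull v t w' \ Gs) ≤ η² pm (hull v t w') < pm (hull v t w')` (`gs_mass`; `pm hull > 0`
  because `pm core > 0` and `core ⊆ hull`, i.e. `Reg`; positivity of `p`). neg: exchange `x, y`.
  bd: by definition.
* add: `d = toC (x₁ - y₁)`, `d' = toC (x₂ - y₂)`, `‖d + d'‖ ≤ 2^v/8 - 3 * 2^s`. The coordinates are
  bounded by the norms, so `8 |(x_i - y_i)_j| ≤ 2^v` and `shift2` gives `ζ ∈ win v w` with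
  `ζ + δ ∈ win v w`, `δ = (x₁-y₁)+(x₂-y₂)`, and profiles `4 η`-close. Apply `pair_of` with the
  regular window `w` and `T = Gs A p s t v η w' w` (roles exchanged; `T ⊆ hull v t w`;
  `gs_mass` with `GoodPair.le'`): there are `x, y ∈ T` with `|(y - x - δ)_j| < 2^s`.
  Let `S = y - x`: `|S_j| ≤ |δ_j| + 2^s ≤ 2^v/8 + 2^v/8 = 2^v/4`. Apply `shift1` to `y, x ∈ T` (the
  pair `(w', w)` is again good) and `pair_of` with the regular window `w'` and
  `T' = Gs A p s t v η w w'` (`gs_mass` with `GoodPair.le`): there are `x', y' ∈ T'` with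
  `|(y' - x' - S)_j| < 2^s`. So `|(y' - x' - δ)_j| < 2 * 2^s` for `j = 1, 2`, hence
  `‖toC (y' - x') - (d + d')‖ ≤ 2 √2 2^s ≤ 3 * 2^s`, and `8 ‖toC (y'-x')‖ ≤ 8(2^v/8) = 2^v`.
-/

set_option autoImplicit false

namespace Pool.Agent.Work.MP_0d53be_an.Full

open scoped Pointwise

variable {A : Finset G} {p : G → ℝ}

theorem toC_add (x y : G) : toC (x + y) = toC x + toC y := by
  apply Complex.ext <;> simp [toC]

theorem toC_sub (x y : G) : toC (x - y) = toC x - toC y := by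
  apply Complex.ext <;> simp [toC]

theorem toC_neg (x : G) : toC (-x) = -toC x := by
  apply Complex.ext <;> simp [toC]

theorem abs_fst_le (z : G) : |(z.1 : ℝ)| ≤ ‖toC z‖ :=
  Complex.abs_re_le_norm (toC z)

theorem abs_snd_le (z : G) : |(z.2 : ℝ)| ≤ ‖toC z‖ :=
  Complex.abs_im_le_norm (toC z)

theorem norm_toC_lt {z : G} {m : ℤ} (h1 : |z.1| < m) (h2 : |z.2| < m) :
    ‖toC z‖ ≤ 3 / 2 * m := by
  have hm : (0 : ℝ) ≤ m := by
    have := (abs_nonneg z.1).trans h1.le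
    exact_mod_cast this
  have h3 : |(z.1 : ℝ)| ≤ m := by exact_mod_cast h1.le
  have h4 : |(z.2 : ℝ)| ≤ m := by exact_mod_cast h2.le
  rw [Complex.norm_eq_sqrt_sq_add_sq]
  refine Real.sqrt_le_iff.2 ⟨by positivity, ?_⟩
  change (z.1 : ℝ) ^ 2 + (z.2 : ℝ) ^ 2 ≤ _
  have h5 : (z.1 : ℝ) ^ 2 ≤ (m : ℝ) ^ 2 := by
    rw [← sq_abs]
    exact pow_le_pow_left₀ (abs_nonneg _) h3 2
  have h6 : (z.2 : ℝ) ^ 2 ≤ (m : ℝ) ^ 2 := by
    rw [← sq_abs (z.2 : ℝ)]
    exact pow_le_pow_left₀ (abs_nonneg _) h4 2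
  nlinarith [sq_nonneg (m : ℝ)]

theorem GoodPair.symm {s t v : ℕ} {η : ℝ} {w w' : G} (h : GoodPair A p s t v η w w') :
    GoodPair A p s t v η w' w :=
  ⟨h.reg', h.reg, h.le', h.le⟩

private theorem pm_hull_pos (hp : Prb A p) {v t : ℕ} (hvt : v ≤ t) {w : G} (hr : Reg p v t w) :
    0 < pm p (hull v t w) := by
  refine hr.1.trans_le ?_
  unfold pm
  exact Finset.sum_le_sum_of_subset_of_nonneg (core_subset_hull hvt w) fun _ _ _ => hp.nonneg _

private theorem cd1 {v : ℕ} {x : G} (h : 8 * ‖toC x‖ ≤ 2 ^ v) :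
    8 * |x.1| ≤ 2 ^ v ∧ 8 * |x.2| ≤ 2 ^ v := by
  have h1 := abs_fst_le x
  have h2 := abs_snd_le x
  have h3 : (8 : ℝ) * |(x.1 : ℝ)| ≤ 2 ^ v := by linarith
  have h4 : (8 : ℝ) * |(x.2 : ℝ)| ≤ 2 ^ v := by linarith
  exact ⟨by exact_mod_cast h3, by exact_mod_cast h4⟩

theorem app_grp (hp : Prb A p) {s t v : ℕ} (hst : s ≤ t) (hvt : v ≤ t) (hsv : s + 3 ≤ v) {η : ℝ}
    (hη : 0 < η) (h16 : η < 1 / 16) {w w' : G} (hg : GoodPair A p s t v η w w') :
    AppGrp (DC A p s t v η w w') (3 * 2 ^ s) (2 ^ v / 8) := by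
  classical
  have hm' := gs_mass hp hη hg.le
  have hm := gs_mass hp hη hg.le'
  refine ⟨?_, ?_, ?_, ?_, ?_⟩
  · refine ((Gs A p s t v η w w' ×ˢ Gs A p s t v η w w').image
      (fun q => toC (q.1 - q.2))).finite_toSet.subset ?_
    rintro d ⟨x, hx, y, hy, rfl, -⟩
    rw [Finset.mem_coe, Finset.mem_image]
    exact ⟨(x, y), Finset.mem_product.2 ⟨hx, hy⟩, rfl⟩
  · have hne : (Gs A p s t v η w w').Nonempty := by
      rw [Finset.nonempty_iff_ne_empty]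
      intro h0
      rw [h0, Finset.sdiff_empty] at hm'
      have h1 := pm_hull_pos hp hvt hg.reg'
      have h2 : η ^ 2 < 1 := by nlinarith
      have h3 := mul_lt_mul_of_pos_right h2 h1
      linarith
    obtain ⟨x, hx⟩ := hne
    refine ⟨x, hx, x, hx, ?_, ?_⟩
    · rw [toC_sub, sub_self]
    · rw [norm_zero, mul_zero]
      positivity
  · rintro d ⟨x, hx, y, hy, rfl, h⟩
    refine ⟨y, hy, x, hx, ?_, ?_⟩
    · rw [toC_sub, toC_sub, neg_sub]
    · rwa [norm_neg]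
  · rintro d ⟨x, hx, y, hy, rfl, h⟩
    linarith
  · rintro d ⟨x₁, hx₁, y₁, hy₁, rfl, hd⟩ d' ⟨x₂, hx₂, y₂, hy₂, rfl, hd'⟩ hn
    obtain ⟨a1, a2⟩ := cd1 hd
    obtain ⟨a3, a4⟩ := cd1 hd'
    obtain ⟨ζ, hζ, hζ', hk⟩ := shift2 hη (by linarith) hx₁ hy₁ hx₂ hy₂ a1 a2 a3 a4
    obtain ⟨x, hx, y, hy, b1, b2⟩ := pair_of hp hst hη h16 hg.reg hm hζ hζ' hk
    rw [← toC_add] at hn ⊢
    set δ : G := (x₁ - y₁) + (x₂ - y₂) with hδ
    have hs1 : (8 : ℝ) * ‖toC δ‖ ≤ 2 ^ v := by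
      have : (0 : ℝ) < 2 ^ s := by positivity
      linarith
    obtain ⟨c1, c2⟩ := cd1 hs1
    have hsv2 : (8 : ℤ) * 2 ^ s ≤ 2 ^ v := by
      have h1 : (2 : ℤ) ^ (s + 3) ≤ 2 ^ v := pow_le_pow_right₀ (by norm_num) hsv
      rw [pow_add] at h1
      linarith
    have e1 : 4 * |(y - x).1| ≤ 2 ^ v := by
      have h1 : (y - x).1 = (y - x - δ).1 + δ.1 := by
        change (y - x).1 = (y - x).1 - δ.1 + δ.1
        ring
      have h2 : |(y - x).1| ≤ |(y - x - δ).1| + |δ.1| := by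
        rw [h1]
        exact abs_add_le _ _
      linarith
    have e2 : 4 * |(y - x).2| ≤ 2 ^ v := by
      have h1 : (y - x).2 = (y - x - δ).2 + δ.2 := by
        change (y - x).2 = (y - x).2 - δ.2 + δ.2
        ring
      have h2 : |(y - x).2| ≤ |(y - x - δ).2| + |δ.2| := by
        rw [h1]
        exact abs_add_le _ _
      linarith
    obtain ⟨ζ2, hζ2, hζ2', hk2⟩ := shift1 hη (by linarith) hy hx e1 e2
    obtain ⟨x', hx', y', hy', f1, f2⟩ := pair_of hp hst hη h16 hg.reg' hm' hζ2 hζ2'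
      (hk2.trans (by linarith))
    have g1 : |(y' - x' - δ).1| < 2 * 2 ^ s := by
      have h1 : (y' - x' - δ).1 = (y' - x' - (y - x)).1 + (y - x - δ).1 := by
        change (y' - x').1 - δ.1 = (y' - x').1 - (y - x).1 + ((y - x).1 - δ.1)
        ring
      rw [h1]
      have h2 := abs_add_le (y' - x' - (y - x)).1 (y - x - δ).1
      linarith
    have g2 : |(y' - x' - δ).2| < 2 * 2 ^ s := by
      have h1 : (y' - x' - δ).2 = (y' - x' - (y - x)).2 + (y - x - δ).2 := by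
        change (y' - x').2 - δ.2 = (y' - x').2 - (y - x).2 + ((y - x).2 - δ.2)
        ring
      rw [h1]
      have h2 := abs_add_le (y' - x' - (y - x)).2 (y - x - δ).2
      linarith
    have hnn := norm_toC_lt g1 g2
    push_cast at hnn
    have hnn2 : ‖toC (y' - x') - toC δ‖ ≤ 3 * 2 ^ s := by
      rw [← toC_sub]
      linarith
    refine ⟨toC (y' - x'), ⟨y', hy', x', hx', rfl, ?_⟩, hnn2⟩
    have h5 : ‖toC (y' - x')‖ ≤ ‖toC (y' - x') - toC δ‖ + ‖toC δ‖ := norm_le_norm_sub_add _ _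
    linarith

end Pool.Agent.Work.MP_0d53be_an.Full
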