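import Pool.Agent.Work.MP_0d53be_an.Full.E.Basic

/-!
# F/Win: counting windows

Fix `v ≤ t`, `c = t - v`, `2^t = 2^c 2^v`.

* `mem_win_iff`/`exists_unique`: a point `ζ` lies in `win v w` iff `w = (ζ.1 / 2^v, ζ.2 / 2^v)`
  (`Int.ediv`, floor division).
* `box_sub_hull`: for `ζ ∈ win v w` and `b ∈ box t`: `ζ - b ∈ hull v t w`.
* `core_sub_box`: for `ζ ∈ win v w` and `x ∈ core v t w` there is `b ∈ box t` with `x = ζ - b`
  (`b = ζ - x`: `ζ_i - x_i ≥ 2^v w_i - 2^v w_i = 0` and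
  `ζ_i - x_i ≤ 2^v w_i + 2^v - 1 - (2^v w_i + 2^v - 2^t) = 2^t - 1`).
* For `x : G` the set of the `w` with `x ∈ hull v t w` is a product of two integer intervals:
  `2^v w_i - 2^t < x_i < 2^v w_i + 2^v` iff `(x_i - 2^v)/2^v < w_i < (x_i + 2^t)/2^v`, an open
  interval of length `2^c + 1`, so it contains `2^c` or `2^c + 1` integers. For the core:
  `2^v w_i + 2^v - 1 - 2^t < x_i ≤ 2^v w_i` iff `x_i / 2^v ≤ w_i < (x_i + 2^t - 2^v + 1)/2^v`, a
  half open interval of length `2^c - 1 + 2^(-v)`, with `2^c - 1` or `2^c` integers.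
* Sum over `x ∈ A` with weights `p x` (exchange `∑'` over `w` and the finite sum; the `w` with
  `pm p (hull v t w) ≠ 0` are finitely many):
  `∑' w, pm p (hull v t w) = ∑_{x∈A} p x #{w : x ∈ hull v t w}` lies between `4^c` and
  `(2^c + 1)² ≤ 4 * 4^c`, and
  `∑' w, (pm p (hull v t w) - pm p (core v t w)) ≤ (2^c + 1)² - (2^c - 1)² = 4 * 2^c`.
-/

set_option autoImplicit false

namespace Pool.Agent.Work.MP_0d53be_an.Full

open scoped Pointwise

variable {A : Finset G} {p : G → ℝ}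

theorem mem_win_iff {v : ℕ} {ζ w : G} : ζ ∈ win v w ↔ w = (ζ.1 / 2 ^ v, ζ.2 / 2 ^ v) := by
  have h2 : (0 : ℤ) < 2 ^ v := by positivity
  have key : ∀ a b : ℤ, (2 ^ v * a ≤ b ∧ b < 2 ^ v * a + 2 ^ v) ↔ a = b / 2 ^ v := by
    intro a b
    constructor
    · rintro ⟨h1, h3⟩
      apply le_antisymm
      · exact (Int.le_ediv_iff_mul_le h2).2 (by linarith [mul_comm a (2 ^ v)])
      · exact Int.lt_add_one_iff.1 ((Int.ediv_lt_iff_lt_mul h2).2 (by nlinarith))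
    · intro h
      have e1 := Int.emod_add_mul_ediv b (2 ^ v)
      have e2 := Int.emod_nonneg b h2.ne'
      have e3 := Int.emod_lt_of_pos b h2
      rw [← h] at e1
      constructor <;> linarith
  obtain ⟨w1, w2⟩ := w
  obtain ⟨z1, z2⟩ := ζ
  simp only [win, Finset.mem_product, Finset.mem_Ico, Prod.mk.injEq]
  rw [key, key]

theorem card_win (v : ℕ) (w : G) : (win v w).card = 4 ^ v := by
  simp only [win, Finset.card_product, Int.card_Ico, add_sub_cancel_left]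
  have : ((2 : ℤ) ^ v).toNat = 2 ^ v := by
    rw [show ((2 : ℤ) ^ v) = ((2 ^ v : ℕ) : ℤ) by push_cast; rfl, Int.toNat_natCast]
  rw [this, ← mul_pow]
  norm_num

theorem box_sub_hull {v t : ℕ} {w ζ b : G} (hζ : ζ ∈ win v w) (hb : b ∈ box t) :
    ζ - b ∈ hull v t w := by
  simp only [win, box, hull, Finset.mem_product, Finset.mem_Ico, Finset.mem_Ioo, Prod.fst_sub,
    Prod.snd_sub] at *
  obtain ⟨⟨a1, a2⟩, a3, a4⟩ := hζ
  obtain ⟨⟨b1, b2⟩, b3, b4⟩ := hb
  refine ⟨⟨?_, ?_⟩, ?_, ?_⟩ <;> linarith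

theorem core_sub_box {v t : ℕ} {w ζ x : G} (hζ : ζ ∈ win v w) (hx : x ∈ core v t w) :
    ζ - x ∈ box t := by
  simp only [win, box, core, Finset.mem_product, Finset.mem_Ico, Finset.mem_Ioc, Prod.fst_sub,
    Prod.snd_sub] at *
  obtain ⟨⟨a1, a2⟩, a3, a4⟩ := hζ
  obtain ⟨⟨b1, b2⟩, b3, b4⟩ := hx
  refine ⟨⟨?_, ?_⟩, ?_, ?_⟩ <;> omega

theorem core_subset_hull {v t : ℕ} (h : v ≤ t) (w : G) : core v t w ⊆ hull v t w := by
  intro x hx
  have h2 : (0 : ℤ) < 2 ^ v := by positivity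
  simp only [hull, core, Finset.mem_product, Finset.mem_Ioo, Finset.mem_Ioc] at *
  obtain ⟨⟨b1, b2⟩, b3, b4⟩ := hx
  refine ⟨⟨?_, ?_⟩, ?_, ?_⟩ <;> omega

private theorem abs_bd {v : ℕ} {a x B : ℤ} (hB : |2 ^ v * a - x| ≤ B) :
    a ∈ Finset.Icc (-(|x| + B)) (|x| + B) := by
  have h2 : (1 : ℤ) ≤ 2 ^ v := one_le_pow₀ (by norm_num)
  have h3 : |a| ≤ |2 ^ v * a| := by
    rw [abs_mul, abs_of_pos (by linarith : (0 : ℤ) < 2 ^ v)]
    nlinarith [abs_nonneg a]
  have h4 : |2 ^ v * a| ≤ |x| + B := by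
    have := abs_add_le (2 ^ v * a - x) x
    rw [sub_add_cancel] at this
    linarith
  rw [Finset.mem_Icc]
  exact abs_le.1 (h3.trans h4)

theorem hull_count_fin (v t : ℕ) (x : G) : {w : G | x ∈ hull v t w}.Finite := by
  have h2 : (0 : ℤ) < 2 ^ v := by positivity
  have h3 : (0 : ℤ) < 2 ^ t := by positivity
  refine Set.Finite.subset (Finset.finite_toSet
    (Finset.Icc (-(|x.1| + (2 ^ v + 2 ^ t))) (|x.1| + (2 ^ v + 2 ^ t)) ×ˢ
      Finset.Icc (-(|x.2| + (2 ^ v + 2 ^ t))) (|x.2| + (2 ^ v + 2 ^ t)))) ?_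
  intro w hw
  simp only [Set.mem_ofPred_eq, hull, Finset.mem_product, Finset.mem_Ioo] at hw
  obtain ⟨⟨a1, a2⟩, a3, a4⟩ := hw
  rw [Finset.mem_coe, Finset.mem_product]
  constructor
  · exact abs_bd (v := v) (by rw [abs_le]; constructor <;> linarith)
  · exact abs_bd (v := v) (by rw [abs_le]; constructor <;> linarith)

private theorem core_count_fin (v t : ℕ) (x : G) : {w : G | x ∈ core v t w}.Finite := by
  have h2 : (0 : ℤ) < 2 ^ v := by positivity
  have h3 : (0 : ℤ) < 2 ^ t := by positivity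
  refine Set.Finite.subset (Finset.finite_toSet
    (Finset.Icc (-(|x.1| + (2 ^ v + 2 ^ t))) (|x.1| + (2 ^ v + 2 ^ t)) ×ˢ
      Finset.Icc (-(|x.2| + (2 ^ v + 2 ^ t))) (|x.2| + (2 ^ v + 2 ^ t)))) ?_
  intro w hw
  simp only [Set.mem_ofPred_eq, core, Finset.mem_product, Finset.mem_Ioc] at hw
  obtain ⟨⟨a1, a2⟩, a3, a4⟩ := hw
  rw [Finset.mem_coe, Finset.mem_product]
  constructor
  · exact abs_bd (v := v) (by rw [abs_le]; constructor <;> linarith)
  · exact abs_bd (v := v) (by rw [abs_le]; constructor <;> linarith)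

private theorem pm_eq (hp : Prb A p) (S : Finset G) :
    pm p S = ∑ x ∈ A, if x ∈ S then p x else 0 := by
  unfold pm
  rw [← Finset.sum_filter, Finset.filter_mem_eq_inter, Finset.inter_comm]
  symm
  refine Finset.sum_subset Finset.inter_subset_left ?_
  intro x hx hx'
  refine hp.supp x fun h => hx' (Finset.mem_inter.2 ⟨hx, h⟩)

private theorem pm_gen_fin (hp : Prb A p) (S : G → Finset G) (hf : ∀ x, {w | x ∈ S w}.Finite) :
    {w : G | pm p (S w) ≠ 0}.Finite := by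
  refine Set.Finite.subset (Set.Finite.biUnion A.finite_toSet (fun x _ => hf x)) ?_
  intro w hw
  rw [Set.mem_ofPred_eq, pm_eq hp] at hw
  obtain ⟨x, hx, hne⟩ := Finset.exists_ne_zero_of_sum_ne_zero hw
  rw [Set.mem_iUnion₂]
  refine ⟨x, hx, ?_⟩
  by_contra h
  exact hne (if_neg h)

private theorem pm_gen_summable (hp : Prb A p) (S : G → Finset G)
    (hf : ∀ x, {w | x ∈ S w}.Finite) : Summable (fun w => pm p (S w)) :=
  summable_of_hasFiniteSupport (pm_gen_fin hp S hf)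

private theorem pm_gen_sum (hp : Prb A p) (S : G → Finset G) (hf : ∀ x, {w | x ∈ S w}.Finite) :
    ∑' w, pm p (S w) = ∑ x ∈ A, p x * ({w | x ∈ S w}.ncard : ℝ) := by
  have h1 : ∀ x, HasSum (fun w => if x ∈ S w then p x else 0)
      (p x * ({w | x ∈ S w}.ncard : ℝ)) := by
    intro x
    have h3 : HasSum (fun w => if x ∈ S w then p x else 0)
        (∑ w ∈ (hf x).toFinset, if x ∈ S w then p x else 0) :=
      hasSum_sum_of_ne_finset_zero (by
        intro w hw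
        exact if_neg fun h => hw ((hf x).mem_toFinset.2 h))
    have h4 : (∑ w ∈ (hf x).toFinset, if x ∈ S w then p x else 0) =
        p x * ({w | x ∈ S w}.ncard : ℝ) := by
      have h5 : ∀ w ∈ (hf x).toFinset, (if x ∈ S w then p x else 0) = p x := by
        intro w hw
        rw [Set.Finite.mem_toFinset, Set.mem_ofPred_eq] at hw
        rw [if_pos hw]
      rw [Finset.sum_congr rfl h5, Finset.sum_const, nsmul_eq_mul,
        Set.ncard_eq_toFinset_card _ (hf x), mul_comm]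
    rwa [h4] at h3
  have h2 := hasSum_sum (s := A) (fun x _ => h1 x)
  rw [← h2.tsum_eq]
  exact tsum_congr fun w => pm_eq hp _

theorem pm_fin (hp : Prb A p) (v t : ℕ) : {w : G | pm p (hull v t w) ≠ 0}.Finite :=
  pm_gen_fin hp _ (hull_count_fin v t)

theorem hull_count_le {v t : ℕ} (h : v ≤ t) (x : G) :
    {w : G | x ∈ hull v t w}.ncard ≤ (2 ^ (t - v) + 1) ^ 2 := by
  have h2 : (0 : ℤ) < 2 ^ v := by positivity
  obtain ⟨c, rfl⟩ := Nat.exists_eq_add_of_le h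
  rw [Nat.add_sub_cancel_left]
  have key : ∀ a b : ℤ, 2 ^ v * a - 2 ^ (v + c) < b → b < 2 ^ v * a + 2 ^ v →
      a ∈ Finset.Icc (b / 2 ^ v) (b / 2 ^ v + 2 ^ c) := by
    intro a b h3 h4
    rw [pow_add] at h3
    rw [Finset.mem_Icc]
    have e1 := Int.emod_add_mul_ediv b (2 ^ v)
    have e2 := Int.emod_nonneg b h2.ne'
    have e3 := Int.emod_lt_of_pos b h2
    constructor
    · by_contra h5
      have h6 : a + 1 ≤ b / 2 ^ v := by omega
      have h7 : (2 : ℤ) ^ v * (a + 1) ≤ 2 ^ v * (b / 2 ^ v) := mul_le_mul_of_nonneg_left h6 h2.le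
      linarith
    · by_contra h5
      have h6 : b / 2 ^ v + 2 ^ c + 1 ≤ a := by omega
      have h7 : (2 : ℤ) ^ v * (b / 2 ^ v + 2 ^ c + 1) ≤ 2 ^ v * a :=
        mul_le_mul_of_nonneg_left h6 h2.le
      linarith
  have hsub : {w : G | x ∈ hull v (v + c) w} ⊆
      ((Finset.Icc (x.1 / 2 ^ v) (x.1 / 2 ^ v + 2 ^ c) ×ˢ
        Finset.Icc (x.2 / 2 ^ v) (x.2 / 2 ^ v + 2 ^ c) : Finset G) : Set G) := by
    intro w hw
    simp only [Set.mem_ofPred_eq, hull, Finset.mem_product, Finset.mem_Ioo] at hw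
    obtain ⟨⟨a1, a2⟩, a3, a4⟩ := hw
    rw [Finset.mem_coe, Finset.mem_product]
    exact ⟨key _ _ a1 a2, key _ _ a3 a4⟩
  refine (Set.ncard_le_ncard hsub (Finset.finite_toSet _)).trans ?_
  rw [Set.ncard_coe_finset, Finset.card_product, Int.card_Icc, Int.card_Icc, sq]
  have e : ∀ q : ℤ, (q + 2 ^ c + 1 - q).toNat = 2 ^ c + 1 := by
    intro q
    rw [show q + 2 ^ c + 1 - q = ((2 ^ c + 1 : ℕ) : ℤ) by push_cast; ring, Int.toNat_natCast]
  rw [e, e]

private theorem count_ge {v c : ℕ} (x : G) :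
    4 ^ c ≤ {w : G | x ∈ hull v (v + c) w}.ncard := by
  have h2 : (0 : ℤ) < 2 ^ v := by positivity
  have key : ∀ a b : ℤ, a ∈ Finset.Ico (b / 2 ^ v) (b / 2 ^ v + 2 ^ c) →
      2 ^ v * a - 2 ^ (v + c) < b ∧ b < 2 ^ v * a + 2 ^ v := by
    intro a b h3
    rw [pow_add]
    rw [Finset.mem_Ico] at h3
    obtain ⟨h4, h5⟩ := h3
    have e1 := Int.emod_add_mul_ediv b (2 ^ v)
    have e2 := Int.emod_nonneg b h2.ne'
    have e3 := Int.emod_lt_of_pos b h2
    have h6 : (2 : ℤ) ^ v * (a + 1) ≤ 2 ^ v * (b / 2 ^ v + 2 ^ c) :=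
      mul_le_mul_of_nonneg_left (by omega) h2.le
    have h7 : (2 : ℤ) ^ v * (b / 2 ^ v) ≤ 2 ^ v * a := mul_le_mul_of_nonneg_left h4 h2.le
    constructor <;> linarith
  have hsub : ((Finset.Ico (x.1 / 2 ^ v) (x.1 / 2 ^ v + 2 ^ c) ×ˢ
        Finset.Ico (x.2 / 2 ^ v) (x.2 / 2 ^ v + 2 ^ c) : Finset G) : Set G) ⊆
      {w : G | x ∈ hull v (v + c) w} := by
    intro w hw
    rw [Finset.mem_coe, Finset.mem_product] at hw
    simp only [Set.mem_ofPred_eq, hull, Finset.mem_product, Finset.mem_Ioo]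
    exact ⟨key _ _ hw.1, key _ _ hw.2⟩
  refine le_trans ?_ (Set.ncard_le_ncard hsub (hull_count_fin _ _ _))
  rw [Set.ncard_coe_finset, Finset.card_product, Int.card_Ico, Int.card_Ico]
  have e : ∀ q : ℤ, (q + 2 ^ c - q).toNat = 2 ^ c := by
    intro q
    rw [show q + 2 ^ c - q = ((2 ^ c : ℕ) : ℤ) by push_cast; ring, Int.toNat_natCast]
  rw [e, e, ← mul_pow]
  norm_num

theorem hull_count_ge {v t : ℕ} (h : v ≤ t) (x : G) :
    4 ^ (t - v) ≤ {w : G | x ∈ hull v t w}.ncard := by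
  obtain ⟨c, rfl⟩ := Nat.exists_eq_add_of_le h
  rw [Nat.add_sub_cancel_left]
  exact count_ge x

private theorem core_count_ge {v c : ℕ} (x : G) :
    (2 ^ c - 1) ^ 2 ≤ {w : G | x ∈ core v (v + c) w}.ncard := by
  have h2 : (0 : ℤ) < 2 ^ v := by positivity
  have key : ∀ a b : ℤ, a ∈ Finset.Ioo (b / 2 ^ v) (b / 2 ^ v + 2 ^ c) →
      2 ^ v * a + 2 ^ v - 1 - 2 ^ (v + c) < b ∧ b ≤ 2 ^ v * a := by
    intro a b h3
    rw [pow_add]
    rw [Finset.mem_Ioo] at h3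
    obtain ⟨h4, h5⟩ := h3
    have e1 := Int.emod_add_mul_ediv b (2 ^ v)
    have e2 := Int.emod_nonneg b h2.ne'
    have e3 := Int.emod_lt_of_pos b h2
    have h6 : (2 : ℤ) ^ v * (a + 1) ≤ 2 ^ v * (b / 2 ^ v + 2 ^ c) :=
      mul_le_mul_of_nonneg_left (by omega) h2.le
    have h7 : (2 : ℤ) ^ v * (b / 2 ^ v + 1) ≤ 2 ^ v * a :=
      mul_le_mul_of_nonneg_left (by omega) h2.le
    constructor <;> linarith
  have hsub : ((Finset.Ioo (x.1 / 2 ^ v) (x.1 / 2 ^ v + 2 ^ c) ×ˢ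
        Finset.Ioo (x.2 / 2 ^ v) (x.2 / 2 ^ v + 2 ^ c) : Finset G) : Set G) ⊆
      {w : G | x ∈ core v (v + c) w} := by
    intro w hw
    rw [Finset.mem_coe, Finset.mem_product] at hw
    simp only [Set.mem_ofPred_eq, core, Finset.mem_product, Finset.mem_Ioc]
    exact ⟨key _ _ hw.1, key _ _ hw.2⟩
  refine le_trans ?_ (Set.ncard_le_ncard hsub (core_count_fin _ _ _))
  rw [Set.ncard_coe_finset, Finset.card_product, Int.card_Ioo, Int.card_Ioo, sq]
  have e : ∀ q : ℤ, (q + 2 ^ c - q - 1).toNat = 2 ^ c - 1 := by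
    intro q
    rw [show q + 2 ^ c - q - 1 = ((2 ^ c - 1 : ℕ) : ℤ) by
      rw [Nat.cast_sub Nat.one_le_two_pow]; push_cast; ring, Int.toNat_natCast]
  rw [e, e]

theorem hull_sum_ge (hp : Prb A p) {v t : ℕ} (h : v ≤ t) :
    (4 : ℝ) ^ (t - v) ≤ ∑' w, pm p (hull v t w) := by
  rw [pm_gen_sum hp _ (hull_count_fin v t)]
  calc (4 : ℝ) ^ (t - v) = ∑ x ∈ A, p x * (4 : ℝ) ^ (t - v) := by
        rw [← Finset.sum_mul, hp.sum_one, one_mul]
    _ ≤ _ := by
        refine Finset.sum_le_sum fun x hx => mul_le_mul_of_nonneg_left ?_ (hp.pos x hx).le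
        have := hull_count_ge h x
        calc (4 : ℝ) ^ (t - v) = ((4 ^ (t - v) : ℕ) : ℝ) := by push_cast; rfl
          _ ≤ _ := Nat.cast_le.2 this

theorem hull_sum_le (hp : Prb A p) {v t : ℕ} (h : v ≤ t) :
    ∑' w, pm p (hull v t w) ≤ 4 * (4 : ℝ) ^ (t - v) := by
  rw [pm_gen_sum hp _ (hull_count_fin v t)]
  calc _ ≤ ∑ x ∈ A, p x * (4 * (4 : ℝ) ^ (t - v)) := by
        refine Finset.sum_le_sum fun x hx => mul_le_mul_of_nonneg_left ?_ (hp.pos x hx).le
        have := hull_count_le h x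
        calc (({w : G | x ∈ hull v t w}.ncard : ℕ) : ℝ) ≤ (((2 ^ (t - v) + 1) ^ 2 : ℕ) : ℝ) :=
              Nat.cast_le.2 this
          _ = ((2 : ℝ) ^ (t - v) + 1) ^ 2 := by push_cast; rfl
          _ ≤ 4 * ((2 : ℝ) ^ (t - v)) ^ 2 := by
              have : (1 : ℝ) ≤ 2 ^ (t - v) := one_le_pow₀ (by norm_num)
              nlinarith
          _ = 4 * (4 : ℝ) ^ (t - v) := by
              rw [← pow_mul, mul_comm (t - v) 2, pow_mul]; norm_num
    _ = 4 * (4 : ℝ) ^ (t - v) := by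
        rw [← Finset.sum_mul, hp.sum_one, one_mul]

theorem hull_core_sum (hp : Prb A p) {v t : ℕ} (h : v ≤ t) :
    ∑' w, (pm p (hull v t w) - pm p (core v t w)) ≤ 4 * (2 : ℝ) ^ (t - v) := by
  rw [(pm_gen_summable hp _ (hull_count_fin v t)).tsum_sub
      (pm_gen_summable hp _ (core_count_fin v t)),
    pm_gen_sum hp _ (hull_count_fin v t), pm_gen_sum hp _ (core_count_fin v t),
    ← Finset.sum_sub_distrib]
  calc _ ≤ ∑ x ∈ A, p x * (4 * (2 : ℝ) ^ (t - v)) := by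
        refine Finset.sum_le_sum fun x hx => ?_
        rw [← mul_sub]
        refine mul_le_mul_of_nonneg_left ?_ (hp.pos x hx).le
        have h1 : (({w : G | x ∈ hull v t w}.ncard : ℕ) : ℝ) ≤ ((2 : ℝ) ^ (t - v) + 1) ^ 2 := by
          have := hull_count_le h x
          calc _ ≤ (((2 ^ (t - v) + 1) ^ 2 : ℕ) : ℝ) := Nat.cast_le.2 this
            _ = _ := by push_cast; rfl
        have h2 : ((2 : ℝ) ^ (t - v) - 1) ^ 2 ≤ (({w : G | x ∈ core v t w}.ncard : ℕ) : ℝ) := by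
          obtain ⟨c, rfl⟩ := Nat.exists_eq_add_of_le h
          rw [Nat.add_sub_cancel_left]
          have := core_count_ge (v := v) (c := c) x
          calc ((2 : ℝ) ^ c - 1) ^ 2 = (((2 ^ c - 1) ^ 2 : ℕ) : ℝ) := by
                rw [Nat.cast_pow, Nat.cast_sub Nat.one_le_two_pow]; push_cast; rfl
            _ ≤ _ := Nat.cast_le.2 this
        nlinarith
    _ = 4 * (2 : ℝ) ^ (t - v) := by
        rw [← Finset.sum_mul, hp.sum_one, one_mul]

end Pool.Agent.Work.MP_0d53be_an.Full
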