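import Pool.Agent.Work.MP_0d53be_an.Full.E.Drop
import Pool.Agent.Work.MP_0d53be_an.Full.F.Win

/-!
# F/Choose: a window most of whose partners are good

Put `c = t - v ≥ 4`, `P(w) = pm p (hull v t w)`.

(1) `irr_sum`: if `w` is not regular then `P(w) ≤ 2 (P(w) - pm p (core v t w))` (clear if
`pm core ≤ 0`, i.e. `= 0`; otherwise `P > 2 pm core`). Always `P(w) ≥ pm core` (`core_subset_hull`).
So `∑' w, [w not regular] P(w) ≤ 2 * 4 * 2^c = 8 * 2^c` by `hull_core_sum`.

(2) `tot_sum`: `∑' w ∑' w' [w regular] P(w) avgEE w w' ≤ 12 η^8 16^c`.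
For `w` regular and `ζ ∈ win v w`: `P(w) ≤ 2 pm (core) ≤ 2 mass p t ζ`, since
`core ⊆ {ζ - b : b ∈ box t}` (`core_sub_box`). So
`P(w) avgEE w w' = ∑_{x ∈ hull w'} p x (∑_{ζ ∈ win w} err ζ x) P(w) / 4^v
 ≤ (2/4^v) ∑_{x ∈ hull w'} ∑_{ζ ∈ win w} mass p t ζ p x err ζ x`.
Sum over `w'`: every `x ∈ A` lies in at most `(2^c+1)² ≤ 4 * 4^c` hulls (`hull_count_le`); sum over
`w`: every `ζ` lies in exactly one window (`mem_win_iff`). The total is at most
`(2/4^v) * 4 * 4^c * (3/2) η^8 4^t = 12 η^8 4^c 4^(t-v) = 12 η^8 16^c` by `err_avg`.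

(3) For regular `w, w'` which do not form a good pair, `avgEE w w' > η^4 P(w')` or
`avgEE w' w > η^4 P(w)`. So
`∑_{w, w' regular, not good} P(w) P(w') ≤ η^(-4) ∑ ∑ P(w) avgEE w w' + η^(-4) ∑ ∑ P(w') avgEE w' w
 ≤ 24 η^4 16^c`. Moreover
`∑_{w regular, w' not regular} P(w) P(w') ≤ 4 * 4^c * 8 * 2^c` (`hull_sum_le`, (1)). Together
`∑_{w regular} P(w) ∑' w' [not GoodPair w w'] P(w') ≤ 24 η^4 16^c + 32 * 8^c`.
On the other hand `∑_{w regular} P(w) ≥ 4^c - 8 * 2^c ≥ 4^c / 2` since `2^c ≥ 16`
(`hull_sum_ge`). So for some regular `w` the inner sum is at most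
`(24 η^4 16^c + 32 * 8^c) / (4^c/2) = 48 η^4 4^c + 64 * 2^c = (48 η^4 + 64 / 2^c) 4^c`.
(If all regular `w` with `P(w) > 0` had a larger inner sum, the weighted sum would be larger.)
-/

set_option autoImplicit false

namespace Pool.Agent.Work.MP_0d53be_an.Full

open scoped Pointwise

variable {A : Finset G} {p : G → ℝ}

private theorem pm_nonneg (hp : Prb A p) (S : Finset G) : 0 ≤ pm p S :=
  Finset.sum_nonneg fun x _ => hp.nonneg x

private theorem pm_mono (hp : Prb A p) {S T : Finset G} (h : S ⊆ T) : pm p S ≤ pm p T :=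
  Finset.sum_le_sum_of_subset_of_nonneg h fun x _ _ => hp.nonneg x

private theorem gen_hasSum {S : Finset G} {F : G → ℝ} (hF : ∀ x, x ∉ S → F x = 0)
    (T : G → Finset G) (hT : ∀ x, {w | x ∈ T w}.Finite) :
    HasSum (fun w => ∑ x ∈ T w, F x) (∑ x ∈ S, F x * ({w | x ∈ T w}.ncard : ℝ)) := by
  have h1 : ∀ x, HasSum (fun w => if x ∈ T w then F x else 0)
      (F x * ({w | x ∈ T w}.ncard : ℝ)) := by
    intro x
    have h3 : HasSum (fun w => if x ∈ T w then F x else 0)
        (∑ w ∈ (hT x).toFinset, if x ∈ T w then F x else 0) :=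
      hasSum_sum_of_ne_finset_zero (by
        intro w hw
        exact if_neg fun h => hw ((hT x).mem_toFinset.2 h))
    have h4 : (∑ w ∈ (hT x).toFinset, if x ∈ T w then F x else 0) =
        F x * ({w | x ∈ T w}.ncard : ℝ) := by
      have h5 : ∀ w ∈ (hT x).toFinset, (if x ∈ T w then F x else 0) = F x := by
        intro w hw
        rw [Set.Finite.mem_toFinset, Set.mem_ofPred_eq] at hw
        rw [if_pos hw]
      rw [Finset.sum_congr rfl h5, Finset.sum_const, nsmul_eq_mul,
        Set.ncard_eq_toFinset_card _ (hT x), mul_comm]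
    rwa [h4] at h3
  have h2 := hasSum_sum (s := S) (fun x _ => h1 x)
  have h3 : (fun w => ∑ x ∈ T w, F x) = (fun w => ∑ x ∈ S, if x ∈ T w then F x else 0) := by
    funext w
    rw [← Finset.sum_filter, Finset.filter_mem_eq_inter, Finset.inter_comm]
    symm
    refine Finset.sum_subset Finset.inter_subset_left ?_
    intro x hx hx'
    exact hF x fun h => hx' (Finset.mem_inter.2 ⟨hx, h⟩)
  rw [h3]
  exact h2

private theorem hull_summable (hp : Prb A p) (v t : ℕ) :
    Summable (fun w => pm p (hull v t w)) := summable_of_hasFiniteSupport (pm_fin hp v t)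

private theorem summable_of_hull (hp : Prb A p) {v t : ℕ} {f : G → ℝ}
    (hf : ∀ w, pm p (hull v t w) = 0 → f w = 0) : Summable f := by
  refine summable_of_hasFiniteSupport ((pm_fin hp v t).subset ?_)
  intro w hw hw'
  exact hw (hf w hw')

open Classical in
theorem irr_sum (hp : Prb A p) {v t : ℕ} (h : v ≤ t) :
    ∑' w, (if Reg p v t w then 0 else pm p (hull v t w)) ≤ 8 * (2 : ℝ) ^ (t - v) := by
  have hsum1 := hull_summable hp v t
  have hsum2 : Summable (fun w => pm p (core v t w)) := by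
    refine summable_of_hull hp (v := v) (t := t) ?_
    intro w hw
    have h1 := pm_mono hp (core_subset_hull h w)
    rw [hw] at h1
    exact le_antisymm h1 (pm_nonneg hp _)
  calc _ ≤ ∑' w, 2 * (pm p (hull v t w) - pm p (core v t w)) := by
        refine Summable.tsum_le_tsum ?_ ?_ ((hsum1.sub hsum2).mul_left 2)
        · intro w
          have h0 := pm_nonneg hp (core v t w)
          have h1 := pm_mono hp (core_subset_hull h w)
          split_ifs with hr
          · linarith
          · rw [Reg, not_and_or, not_lt, not_le] at hr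
            rcases hr with hr | hr
            · linarith
            · linarith
        · refine summable_of_hull hp (v := v) (t := t) ?_
          intro w hw
          rw [hw, ite_self]
    _ = 2 * ∑' w, (pm p (hull v t w) - pm p (core v t w)) := tsum_mul_left
    _ ≤ 2 * (4 * (2 : ℝ) ^ (t - v)) := mul_le_mul_of_nonneg_left (hull_core_sum hp h) (by norm_num)
    _ = 8 * (2 : ℝ) ^ (t - v) := by ring

private theorem err_nn (s t : ℕ) (ζ x : G) : 0 ≤ err A p s t ζ x :=
  Finset.sum_nonneg fun _ _ => abs_nonneg _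

private theorem avgE_nn (s t v : ℕ) (w x : G) : 0 ≤ avgE A p s t v w x :=
  div_nonneg (Finset.sum_nonneg fun ζ _ => err_nn s t ζ x) (by positivity)

private theorem avgEE_nn (hp : Prb A p) (s t v : ℕ) (w w' : G) : 0 ≤ avgEE A p s t v w w' :=
  Finset.sum_nonneg fun x _ => mul_nonneg (hp.nonneg x) (avgE_nn s t v w x)

private theorem avgEE_zero (hp : Prb A p) {s t v : ℕ} {w w' : G}
    (h : pm p (hull v t w') = 0) : avgEE A p s t v w w' = 0 := by
  unfold pm at h
  rw [Finset.sum_eq_zero_iff_of_nonneg (fun x _ => hp.nonneg x)] at h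
  unfold avgEE
  refine Finset.sum_eq_zero fun x hx => ?_
  rw [h x hx, zero_mul]

private theorem core_le_mass (hp : Prb A p) {v t : ℕ} {w ζ : G} (hζ : ζ ∈ win v w) :
    pm p (core v t w) ≤ mass p t ζ := by
  have hinj : Function.Injective (fun x : G => ζ - x) := sub_right_injective
  calc pm p (core v t w) = ∑ b ∈ (core v t w).image (fun x => ζ - x), p (ζ - b) := by
        rw [Finset.sum_image hinj.injOn]
        refine Finset.sum_congr rfl fun x _ => ?_
        rw [sub_sub_cancel]
    _ ≤ mass p t ζ := by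
        refine Finset.sum_le_sum_of_subset_of_nonneg ?_ fun x _ _ => hp.nonneg _
        intro b hb
        obtain ⟨x, hx, rfl⟩ := Finset.mem_image.1 hb
        exact core_sub_box hζ hx

private theorem inner_le (hp : Prb A p) {s v t : ℕ} (hvt : v ≤ t) {w : G} (hr : Reg p v t w) :
    ∑' w', pm p (hull v t w) * avgEE A p s t v w w' ≤
      8 * (4 : ℝ) ^ (t - v) / 4 ^ v * ∑ ζ ∈ win v w,
        ∑ x ∈ A, mass p t ζ * p x * err A p s t ζ x := by
  have h1 := gen_hasSum (S := A) (F := fun x => p x * avgE A p s t v w x)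
    (fun x hx => by rw [hp.supp x hx, zero_mul]) (hull v t) (hull_count_fin v t)
  rw [tsum_mul_left]
  have e1 : ∑' w', avgEE A p s t v w w' = _ := h1.tsum_eq
  rw [e1]
  have h4 : (0 : ℝ) < 4 ^ v := by positivity
  calc _ ≤ pm p (hull v t w) * ∑ x ∈ A, p x * avgE A p s t v w x * (4 * (4 : ℝ) ^ (t - v)) := by
        refine mul_le_mul_of_nonneg_left (Finset.sum_le_sum fun x _ => ?_) (pm_nonneg hp _)
        refine mul_le_mul_of_nonneg_left ?_ (mul_nonneg (hp.nonneg x) (avgE_nn s t v w x))
        have := hull_count_le hvt x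
        calc (({w : G | x ∈ hull v t w}.ncard : ℕ) : ℝ) ≤ (((2 ^ (t - v) + 1) ^ 2 : ℕ) : ℝ) :=
              Nat.cast_le.2 this
          _ = ((2 : ℝ) ^ (t - v) + 1) ^ 2 := by push_cast; rfl
          _ ≤ 4 * ((2 : ℝ) ^ (t - v)) ^ 2 := by
              have : (1 : ℝ) ≤ 2 ^ (t - v) := one_le_pow₀ (by norm_num)
              nlinarith
          _ = 4 * (4 : ℝ) ^ (t - v) := by
              rw [← pow_mul, mul_comm (t - v) 2, pow_mul]; norm_num
    _ = ∑ x ∈ A, ∑ ζ ∈ win v w, 4 * (4 : ℝ) ^ (t - v) / 4 ^ v *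
          (pm p (hull v t w) * (p x * err A p s t ζ x)) := by
        rw [Finset.mul_sum]
        refine Finset.sum_congr rfl fun x _ => ?_
        rw [avgE, Finset.sum_div, Finset.mul_sum, Finset.sum_mul, Finset.mul_sum]
        refine Finset.sum_congr rfl fun ζ _ => ?_
        field_simp
    _ ≤ ∑ x ∈ A, ∑ ζ ∈ win v w, 4 * (4 : ℝ) ^ (t - v) / 4 ^ v *
          (2 * mass p t ζ * (p x * err A p s t ζ x)) := by
        refine Finset.sum_le_sum fun x _ => Finset.sum_le_sum fun ζ hζ => ?_
        refine mul_le_mul_of_nonneg_left ?_ (by positivity)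
        refine mul_le_mul_of_nonneg_right ?_ (mul_nonneg (hp.nonneg x) (err_nn s t ζ x))
        have := core_le_mass hp (t := t) hζ
        linarith [hr.2]
    _ = _ := by
        rw [Finset.sum_comm, Finset.mul_sum]
        refine Finset.sum_congr rfl fun ζ _ => ?_
        rw [Finset.mul_sum]
        refine Finset.sum_congr rfl fun x _ => ?_
        ring

open Classical in
theorem tot_sum (hp : Prb A p) {s v t : ℕ} (hst : s ≤ t) (hvt : v ≤ t) {η : ℝ} (hη : 0 < η)
    (hd : drop A p s t ≤ η ^ 16) :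
    ∑' w, ∑' w', (if Reg p v t w then pm p (hull v t w) * avgEE A p s t v w w' else 0) ≤
      12 * η ^ 8 * (16 : ℝ) ^ (t - v) := by
  set F : G → ℝ := fun ζ => ∑ x ∈ A, mass p t ζ * p x * err A p s t ζ x with hF
  have hF0 : ∀ ζ, 0 ≤ F ζ := fun ζ => Finset.sum_nonneg fun x _ =>
    mul_nonneg (mul_nonneg (mass_nonneg hp _ _) (hp.nonneg x)) (err_nn s t ζ x)
  have hFS : ∀ ζ, ζ ∉ (mass_fin hp t).toFinset → F ζ = 0 := by
    intro ζ hζ
    rw [Set.Finite.mem_toFinset, Function.mem_support, not_not] at hζ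
    refine Finset.sum_eq_zero fun x _ => ?_
    rw [hζ, zero_mul, zero_mul]
  have hone : ∀ ζ : G, {w | ζ ∈ win v w} = {(ζ.1 / 2 ^ v, ζ.2 / 2 ^ v)} := by
    intro ζ
    ext w
    rw [Set.mem_ofPred_eq, mem_win_iff, Set.mem_singleton_iff]
  have hw := gen_hasSum hFS (win v) (fun ζ => by rw [hone ζ]; exact Set.finite_singleton _)
  have e1 : ∑ ζ ∈ (mass_fin hp t).toFinset, F ζ * ({w | ζ ∈ win v w}.ncard : ℝ) = ∑' ζ, F ζ := by
    rw [tsum_eq_sum (s := (mass_fin hp t).toFinset) (fun ζ hζ => hFS ζ hζ)]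
    refine Finset.sum_congr rfl fun ζ _ => ?_
    rw [hone ζ, Set.ncard_singleton, Nat.cast_one, mul_one]
  rw [e1] at hw
  calc _ ≤ ∑' w, 8 * (4 : ℝ) ^ (t - v) / 4 ^ v * ∑ ζ ∈ win v w, F ζ := by
        refine Summable.tsum_le_tsum ?_ ?_ (hw.summable.mul_left _)
        · intro w
          by_cases hr : Reg p v t w
          · simp only [hr, if_true]
            exact inner_le hp hvt hr
          · simp only [hr, if_false, tsum_zero]
            exact mul_nonneg (by positivity) (Finset.sum_nonneg fun ζ _ => hF0 ζ)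
        · refine summable_of_hull hp (v := v) (t := t) ?_
          intro w hw
          simp only [hw, zero_mul, ite_self, tsum_zero]
    _ = 8 * (4 : ℝ) ^ (t - v) / 4 ^ v * ∑' ζ, F ζ := by
        rw [tsum_mul_left, hw.tsum_eq]
    _ ≤ 8 * (4 : ℝ) ^ (t - v) / 4 ^ v * (3 / 2 * η ^ 8 * 4 ^ t) :=
        mul_le_mul_of_nonneg_left (err_avg hp hst hη hd) (by positivity)
    _ = 12 * η ^ 8 * (16 : ℝ) ^ (t - v) := by
        obtain ⟨c, rfl⟩ := Nat.exists_eq_add_of_le hvt
        rw [Nat.add_sub_cancel_left, pow_add, show (16 : ℝ) = 4 * 4 by norm_num, mul_pow]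
        field_simp
        ring

open Classical in
theorem choose_win (hp : Prb A p) {s v t : ℕ} (hst : s ≤ t) (hvt : v + 4 ≤ t) {η : ℝ} (hη : 0 < η)
    (hd : drop A p s t ≤ η ^ 16) :
    ∃ w, Reg p v t w ∧
      ∑' w', (if GoodPair A p s t v η w w' then 0 else pm p (hull v t w')) ≤
        (48 * η ^ 4 + 64 / 2 ^ (t - v)) * 4 ^ (t - v) := by
  have hvt' : v ≤ t := by omega
  set P : G → ℝ := fun w => pm p (hull v t w) with hP
  have hP0 : ∀ w, 0 ≤ P w := fun w => pm_nonneg hp _
  set W : Finset G := (pm_fin hp v t).toFinset with hW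
  have hWz : ∀ w, w ∉ W → P w = 0 := by
    intro w hw
    rw [hW, Set.Finite.mem_toFinset, Set.mem_ofPred_eq, not_not] at hw
    exact hw
  have hirr := irr_sum hp hvt'
  have htot := tot_sum hp hst hvt' hη hd
  have hge := hull_sum_ge hp hvt'
  have hle := hull_sum_le hp hvt'
  set c := t - v with hc
  have hc4 : 4 ≤ c := by omega
  set D : ℝ := 2 ^ c with hD
  have hD16 : (16 : ℝ) ≤ D := by
    calc (16 : ℝ) = 2 ^ 4 := by norm_num
      _ ≤ 2 ^ c := pow_le_pow_right₀ (by norm_num) hc4
  have e4 : (4 : ℝ) ^ c = D ^ 2 := by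
    rw [hD, ← pow_mul, mul_comm c 2, pow_mul]; norm_num
  have e16 : (16 : ℝ) ^ c = D ^ 4 := by
    rw [hD, ← pow_mul, mul_comm c 4, pow_mul]; norm_num
  rw [e4] at hge hle
  rw [e16] at htot
  rw [e4]
  -- finite sums
  have s1 : ∑' w, P w = ∑ w ∈ W, P w := tsum_eq_sum fun w hw => hWz w hw
  have s2 : ∑' w, (if Reg p v t w then 0 else P w) = ∑ w ∈ W, (if Reg p v t w then 0 else P w) :=
    tsum_eq_sum fun w hw => by rw [hWz w hw, ite_self]
  have s3 : ∑' w, ∑' w', (if Reg p v t w then P w * avgEE A p s t v w w' else 0) =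
      ∑ w ∈ W, ∑ w' ∈ W, (if Reg p v t w then P w * avgEE A p s t v w w' else 0) := by
    rw [tsum_eq_sum (s := W) (fun w hw => by simp only [hWz w hw, zero_mul, ite_self, tsum_zero])]
    refine Finset.sum_congr rfl fun w _ => tsum_eq_sum fun w' hw' => ?_
    rw [avgEE_zero hp (hWz w' hw'), mul_zero, ite_self]
  have s4 : ∀ w, ∑' w', (if GoodPair A p s t v η w w' then 0 else P w') =
      ∑ w' ∈ W, (if GoodPair A p s t v η w w' then 0 else P w') := fun w =>
    tsum_eq_sum fun w' hw' => by rw [hWz w' hw', ite_self]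
  change ∑' w, (if Reg p v t w then 0 else P w) ≤ _ at hirr
  change ∑' w, ∑' w', (if Reg p v t w then P w * avgEE A p s t v w w' else 0) ≤ _ at htot
  change _ ≤ ∑' w, P w at hge
  change ∑' w, P w ≤ _ at hle
  rw [s2] at hirr
  rw [s3] at htot
  rw [s1] at hge hle
  -- the regular windows
  have hreg : D ^ 2 / 2 ≤ ∑ w ∈ W, (if Reg p v t w then P w else 0) := by
    have : ∑ w ∈ W, P w = ∑ w ∈ W, (if Reg p v t w then P w else 0) +
        ∑ w ∈ W, (if Reg p v t w then 0 else P w) := by
      rw [← Finset.sum_add_distrib]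
      refine Finset.sum_congr rfl fun w _ => ?_
      split_ifs <;> ring
    nlinarith
  have η4 : (0 : ℝ) < η ^ 4 := by positivity
  -- pointwise bound
  have hpt : ∀ w w', (if Reg p v t w then P w else 0) *
      (if GoodPair A p s t v η w w' then 0 else P w') ≤
      P w * (if Reg p v t w' then 0 else P w') +
        ((if Reg p v t w then P w * avgEE A p s t v w w' else 0) / η ^ 4 +
          (if Reg p v t w' then P w' * avgEE A p s t v w' w else 0) / η ^ 4) := by
    intro w w'
    have a1 := mul_nonneg (hP0 w) (avgEE_nn hp s t v w w')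
    have a2 := mul_nonneg (hP0 w') (avgEE_nn hp s t v w' w)
    have a3 := mul_nonneg (hP0 w) (hP0 w')
    by_cases hr : Reg p v t w
    · by_cases hr' : Reg p v t w'
      · by_cases hg : GoodPair A p s t v η w w'
        · simp only [hr, hr', hg, if_true, mul_zero, zero_add]
          positivity
        · simp only [hr, hr', hg, if_true, if_false, mul_zero, zero_add]
          rw [← add_div, le_div_iff₀ η4]
          by_cases h1 : avgEE A p s t v w w' ≤ η ^ 4 * pm p (hull v t w')
          · by_cases h2 : avgEE A p s t v w' w ≤ η ^ 4 * pm p (hull v t w)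
            · exact absurd ⟨hr, hr', h1, h2⟩ hg
            · rw [not_le] at h2
              have h3 : P w' * (η ^ 4 * P w) ≤ P w' * avgEE A p s t v w' w :=
                mul_le_mul_of_nonneg_left h2.le (hP0 w')
              linarith
          · rw [not_le] at h1
            have h3 : P w * (η ^ 4 * P w') ≤ P w * avgEE A p s t v w w' :=
              mul_le_mul_of_nonneg_left h1.le (hP0 w)
            linarith
      · have hg : ¬ GoodPair A p s t v η w w' := fun h => hr' h.reg'
        simp only [hr, hr', hg, if_true, if_false, zero_div, add_zero]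
        have : 0 ≤ P w * avgEE A p s t v w w' / η ^ 4 := div_nonneg a1 η4.le
        linarith
    · simp only [hr, if_false, zero_mul, zero_div, zero_add]
      refine add_nonneg (mul_nonneg (hP0 w) ?_) (div_nonneg ?_ η4.le)
      · split_ifs
        exacts [le_rfl, hP0 w']
      · split_ifs
        exacts [a2, le_rfl]
  -- the double sum
  have hdbl : ∑ w ∈ W, (if Reg p v t w then P w else 0) *
      ∑' w', (if GoodPair A p s t v η w w' then 0 else P w') ≤ 24 * η ^ 4 * D ^ 4 + 32 * D ^ 3 := by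
    have hcomm : ∑ w ∈ W, ∑ w' ∈ W,
        (if Reg p v t w' then P w' * avgEE A p s t v w' w else 0) =
        ∑ w ∈ W, ∑ w' ∈ W, (if Reg p v t w then P w * avgEE A p s t v w w' else 0) :=
      Finset.sum_comm
    calc _ = ∑ w ∈ W, ∑ w' ∈ W, (if Reg p v t w then P w else 0) *
          (if GoodPair A p s t v η w w' then 0 else P w') := by
          refine Finset.sum_congr rfl fun w _ => ?_
          rw [s4 w, Finset.mul_sum]
      _ ≤ ∑ w ∈ W, ∑ w' ∈ W, (P w * (if Reg p v t w' then 0 else P w') +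
          ((if Reg p v t w then P w * avgEE A p s t v w w' else 0) / η ^ 4 +
            (if Reg p v t w' then P w' * avgEE A p s t v w' w else 0) / η ^ 4)) :=
          Finset.sum_le_sum fun w _ => Finset.sum_le_sum fun w' _ => hpt w w'
      _ = (∑ w ∈ W, P w) * (∑ w' ∈ W, if Reg p v t w' then 0 else P w') +
          ((∑ w ∈ W, ∑ w' ∈ W, (if Reg p v t w then P w * avgEE A p s t v w w' else 0)) / η ^ 4 +
            (∑ w ∈ W, ∑ w' ∈ W,
              (if Reg p v t w' then P w' * avgEE A p s t v w' w else 0)) / η ^ 4) := by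
          simp only [Finset.sum_add_distrib, Finset.sum_div, Finset.sum_mul_sum]
      _ ≤ (4 * D ^ 2) * (8 * D) + (12 * η ^ 8 * D ^ 4 / η ^ 4 + 12 * η ^ 8 * D ^ 4 / η ^ 4) := by
          rw [hcomm]
          refine add_le_add (mul_le_mul hle hirr ?_ (by positivity)) (add_le_add ?_ ?_)
          · refine Finset.sum_nonneg fun w _ => ?_
            split_ifs
            exacts [le_rfl, hP0 w]
          · exact div_le_div_of_nonneg_right htot η4.le
          · exact div_le_div_of_nonneg_right htot η4.le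
      _ = 24 * η ^ 4 * D ^ 4 + 32 * D ^ 3 := by
          field_simp
          ring
  have hDpos : (0 : ℝ) < D := by linarith
  by_contra hcon
  push Not at hcon
  have hR0 : ∀ w, 0 ≤ (if Reg p v t w then P w else 0) := by
    intro w
    split_ifs
    exacts [hP0 w, le_rfl]
  have hlt : ∑ w ∈ W, (if Reg p v t w then P w else 0) * ((48 * η ^ 4 + 64 / D) * D ^ 2) <
      ∑ w ∈ W, (if Reg p v t w then P w else 0) *
      ∑' w', (if GoodPair A p s t v η w w' then 0 else P w') := by
    refine Finset.sum_lt_sum ?_ ?_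
    · intro w _
      by_cases hr : Reg p v t w
      · exact mul_le_mul_of_nonneg_left (hcon w hr).le (hR0 w)
      · simp only [hr, if_false, zero_mul, le_refl]
    · have hpos : 0 < ∑ w ∈ W, (if Reg p v t w then P w else 0) :=
        lt_of_lt_of_le (by positivity) hreg
      obtain ⟨w, hwW, hw0⟩ := Finset.exists_ne_zero_of_sum_ne_zero hpos.ne'
      refine ⟨w, hwW, ?_⟩
      by_cases hr : Reg p v t w
      · exact mul_lt_mul_of_pos_left (hcon w hr) (lt_of_le_of_ne (hR0 w) (Ne.symm hw0))
      · simp only [hr, if_false, ne_eq, not_true_eq_false] at hw0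
  rw [← Finset.sum_mul] at hlt
  have hfin : D ^ 2 / 2 * ((48 * η ^ 4 + 64 / D) * D ^ 2) = 24 * η ^ 4 * D ^ 4 + 32 * D ^ 3 := by
    field_simp
    ring
  have h9 : D ^ 2 / 2 * ((48 * η ^ 4 + 64 / D) * D ^ 2) ≤
      (∑ w ∈ W, (if Reg p v t w then P w else 0)) * ((48 * η ^ 4 + 64 / D) * D ^ 2) :=
    mul_le_mul_of_nonneg_right hreg (by positivity)
  linarith

end Pool.Agent.Work.MP_0d53be_an.Full
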