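import Pool.Agent.Work.MP_0d53be_an.Full.F.AG

/-!
# F/Cov: all differences are realized by the sum set near one translate

Let `(w, w')` be a good pair, `c = t - v`, `η * 2^(2c+11) ≤ 1`, `s + 3 ≤ v`. There is `q : ℂ` such
that every `d ∈ DC A p s t v η w w'` has some `z ∈ A + A` with `‖toC z - (q + d)‖ ≤ 3 * 2^s`.

Proof. `P = pm p (hull v t w)`, `P' = pm p (hull v t w')`, `K = core v t w`, `K' = core v t w'`,
`T = Gs A p s t v η w' w ⊆ hull v t w` (roles exchanged), `p(S) = pm p S`. `P ≤ 2 p(K)`,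
`P' ≤ 2 p(K')`, `p(hull \ T) ≤ η² P` (`gs_mass`, `GoodPair.le'`).
(a) A small window. Cut `K` according to `(x.1 / 2^(v-3), x.2 / 2^(v-3))` (floor division): `K` is a
box with side `2^t - 2^v + 1 ≤ 2^t`, so at most `(2^(c+3) + 1)² ≤ 81 * 4^c` classes occur. Some
class `W ⊆ K` has `p(W) ≥ p(K)/(81 * 4^c) ≥ P/(162 * 4^c)`. For `x, x₀ ∈ W`:
`|(x₀ - x)_j| < 2^(v-3)`.
(b) `p(W \ T) ≤ η² P ≤ η² 162 * 4^c p(W) ≤ p(W)/4`. In particular `W ∩ T` is not empty; fix
`x₀ ∈ W ∩ T`.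
(c) Let `x ∈ W ∩ T`, `S = x₀ - x`. `shift1` for the good pair `(w', w)` gives
`ζ, ζ + S ∈ win v w'` with profiles `2 η`-close; by `part_of` (for the window `w'`) the set `N_x` of
the `x' ∈ K'` with no `y ∈ A`, `|(y - x' - S)_j| < 2^s`, has `p(N_x) ≤ 2 η P' ≤ 4 η p(K')`.
Then `∑_{x' ∈ K'} p(x') ∑_{x ∈ W ∩ T, x' ∈ N_x} p(x) = ∑_{x ∈ W ∩ T} p(x) p(N_x)
≤ 4 η p(K') p(W)`, so some `x₀' ∈ K'` satisfies `∑_{x ∈ W∩T, x₀' ∈ N_x} p(x) ≤ 4 η p(W) ≤ p(W)/4`.
(d) Put `q = toC (x₀ + x₀')`. Let `d = toC (a - b)`, `a, b ∈ Gs A p s t v η w w'`,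
`8 ‖d‖ ≤ 2^v`. By `shift1` for `(w, w')` and `part_of` for `w` the set `N` of the `x ∈ K` with no
`y ∈ A`, `|(y - x - (a - b))_j| < 2^s`, has `p(N) ≤ 2 η P ≤ 324 * 4^c η p(W) ≤ (324/2048) p(W)
≤ p(W)/4`. The three exceptional sets in `W` (not in `T`; in `N`; `x₀' ∈ N_x`) have total mass at
most `(3/4) p(W) < p(W)`, so there is `x ∈ W ∩ T` with `y ∈ A`, `|(y - x - (a-b))_j| < 2^s`, and
`y' ∈ A`, `|(y' - x₀' - (x₀ - x))_j| < 2^s`. Then `z = y + y' ∈ A + A` and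
`z - (x₀ + x₀') - (a - b)` has coordinates of absolute value `< 2 * 2^s`
(`norm_toC_lt` with `m = 2 * 2^s`).
-/

set_option autoImplicit false

namespace Pool.Agent.Work.MP_0d53be_an.Full

open scoped Pointwise

variable {A : Finset G} {p : G → ℝ}

private theorem cv_nonneg (hp : Prb A p) (S : Finset G) : 0 ≤ pm p S :=
  Finset.sum_nonneg fun x _ => hp.nonneg x

private theorem cv_mono (hp : Prb A p) {S T : Finset G} (h : S ⊆ T) : pm p S ≤ pm p T :=
  Finset.sum_le_sum_of_subset_of_nonneg h fun x _ _ => hp.nonneg x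

private theorem cv_coord {v t : ℕ} (hvt : v ≤ t) (h3 : 3 ≤ v) {x w : ℤ}
    (hx : x ∈ Finset.Ioc (2 ^ v * w + 2 ^ v - 1 - 2 ^ t) (2 ^ v * w)) :
    x / 2 ^ (v - 3) ∈ Finset.Icc (8 * w + 8 - 8 * 2 ^ (t - v)) (8 * w) := by
  have hm : (0 : ℤ) < 2 ^ (v - 3) := by positivity
  have e1 : (2 : ℤ) ^ v = 2 ^ (v - 3) * 8 := by
    have : v = (v - 3) + 3 := by omega
    conv_lhs => rw [this]
    rw [pow_add]
    norm_num
  have e2 : (2 : ℤ) ^ t = 2 ^ (v - 3) * 8 * 2 ^ (t - v) := by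
    rw [← e1, ← pow_add]
    congr 1
    omega
  rw [Finset.mem_Ioc, e2, e1] at hx
  obtain ⟨h1, h2⟩ := hx
  rw [Finset.mem_Icc]
  constructor
  · rw [Int.le_ediv_iff_mul_le hm]
    have h4 : (8 * w + 8 - 8 * 2 ^ (t - v)) * 2 ^ (v - 3) =
      2 ^ (v - 3) * 8 * w + 2 ^ (v - 3) * 8 - 2 ^ (v - 3) * 8 * 2 ^ (t - v) := by ring
    rw [h4]
    linarith
  · have h4 : 8 * w * 2 ^ (v - 3) = 2 ^ (v - 3) * 8 * w := by ring
    exact Int.ediv_le_of_le_mul hm (by rw [h4]; exact h2)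

private theorem cv_card (c : ℕ) (w : ℤ) :
    (Finset.Icc (8 * w + 8 - 8 * 2 ^ c) (8 * w)).card ≤ 8 * 2 ^ c := by
  rw [Int.card_Icc]
  have h1 : (8 * w + 1 - (8 * w + 8 - 8 * 2 ^ c)) = 8 * 2 ^ c - 7 := by ring
  rw [h1]
  have h2 : ((8 * 2 ^ c : ℕ) : ℤ) = 8 * 2 ^ c := by push_cast; ring
  omega

private theorem cv_div {m x y : ℤ} (hm : 0 < m) (h : x / m = y / m) : |x - y| < m := by
  have h1 := Int.emod_add_mul_ediv x m
  have h2 := Int.emod_add_mul_ediv y m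
  have h3 := Int.emod_nonneg x hm.ne'
  have h4 := Int.emod_nonneg y hm.ne'
  have h5 := Int.emod_lt_of_pos x hm
  have h6 := Int.emod_lt_of_pos y hm
  rw [h] at h1
  rw [abs_lt]
  constructor <;> linarith

/-- a small window with a good share of the mass -/
private theorem small_window {v t : ℕ} (hvt : v ≤ t) (h3 : 3 ≤ v) (w : G)
    (hK : 0 < pm p (core v t w)) : ∃ W ⊆ core v t w,
      pm p (core v t w) ≤ 64 * 4 ^ (t - v) * pm p W ∧
      ∀ x ∈ W, ∀ y ∈ W, |(x - y).1| < 2 ^ (v - 3) ∧ |(x - y).2| < 2 ^ (v - 3) := by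
  classical
  set f : G → G := fun x => (x.1 / 2 ^ (v - 3), x.2 / 2 ^ (v - 3)) with hf
  set I : Finset G := Finset.Icc (8 * w.1 + 8 - 8 * 2 ^ (t - v)) (8 * w.1) ×ˢ
    Finset.Icc (8 * w.2 + 8 - 8 * 2 ^ (t - v)) (8 * w.2) with hI
  have hmap : ∀ x ∈ core v t w, f x ∈ I := by
    intro x hx
    unfold core at hx
    rw [Finset.mem_product] at hx
    rw [hI, Finset.mem_product]
    exact ⟨cv_coord hvt h3 hx.1, cv_coord hvt h3 hx.2⟩
  have hne : I.Nonempty := by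
    have h1 : (core v t w).Nonempty := by
      rw [Finset.nonempty_iff_ne_empty]
      intro h
      rw [h] at hK
      simp [pm] at hK
    obtain ⟨x, hx⟩ := h1
    exact ⟨f x, hmap x hx⟩
  have hcard : (I.card : ℝ) ≤ 64 * 4 ^ (t - v) := by
    have h1 : I.card ≤ (8 * 2 ^ (t - v)) * (8 * 2 ^ (t - v)) := by
      rw [hI, Finset.card_product]
      exact Nat.mul_le_mul (cv_card _ _) (cv_card _ _)
    have h2 : (I.card : ℝ) ≤ ((8 * 2 ^ (t - v)) * (8 * 2 ^ (t - v)) : ℕ) := by exact_mod_cast h1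
    refine h2.trans (le_of_eq ?_)
    push_cast
    have h4 : (4 : ℝ) ^ (t - v) = 2 ^ (t - v) * 2 ^ (t - v) := by
      rw [← mul_pow]
      norm_num
    rw [h4]
    ring
  have hsum : ∑ κ ∈ I, pm p ((core v t w).filter fun x => f x = κ) = pm p (core v t w) := by
    unfold pm
    exact Finset.sum_fiberwise_of_maps_to hmap p
  have hD : (0 : ℝ) < 64 * 4 ^ (t - v) := by positivity
  have hle : ∑ _κ ∈ I, pm p (core v t w) / (64 * 4 ^ (t - v)) ≤
      ∑ κ ∈ I, pm p ((core v t w).filter fun x => f x = κ) := by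
    rw [hsum, Finset.sum_const, nsmul_eq_mul, ← mul_div_assoc, div_le_iff₀ hD, mul_comm]
    exact mul_le_mul_of_nonneg_left hcard hK.le
  obtain ⟨κ, -, hκ⟩ := Finset.exists_le_of_sum_le hne hle
  refine ⟨(core v t w).filter fun x => f x = κ, Finset.filter_subset _ _, ?_, ?_⟩
  · rw [div_le_iff₀ hD] at hκ
    linarith
  · intro x hx y hy
    rw [Finset.mem_filter] at hx hy
    have h1 : f x = f y := hx.2.trans hy.2.symm
    have hm : (0 : ℤ) < 2 ^ (v - 3) := by positivity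
    exact ⟨cv_div hm (congrArg Prod.fst h1), cv_div hm (congrArg Prod.snd h1)⟩

theorem coverage (hp : Prb A p) {s t v : ℕ} (hvt : v ≤ t) (hsv : s + 3 ≤ v) {η : ℝ}
    (hη : 0 < η) (hsm : η * 2 ^ (2 * (t - v) + 11) ≤ 1) {w w' : G}
    (hg : GoodPair A p s t v η w w') :
    ∃ q : ℂ, ∀ d ∈ DC A p s t v η w w', ∃ z ∈ A + A, ‖toC z - (q + d)‖ ≤ 3 * 2 ^ s := by
  classical
  have hst : s ≤ t := by omega
  -- numerical facts
  have h4c : (2 : ℝ) ^ (2 * (t - v) + 11) = 2048 * 4 ^ (t - v) := by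
    rw [pow_add, pow_mul]
    norm_num
    ring
  have h4pos : (1 : ℝ) ≤ 4 ^ (t - v) := one_le_pow₀ (by norm_num)
  have hsm1 : 2048 * (η * 4 ^ (t - v)) ≤ 1 := by
    rw [h4c] at hsm
    linarith
  have hη1 : 2048 * η ≤ 1 := by nlinarith
  have h8 : η < 1 / 8 := by linarith
  obtain ⟨hKpos, hPK⟩ := hg.reg
  obtain ⟨hKpos', hPK'⟩ := hg.reg'
  set K := core v t w with hK
  set K' := core v t w' with hK'
  set H := hull v t w with hH
  set H' := hull v t w' with hH'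
  have hKH : K ⊆ H := core_subset_hull hvt w
  set T := Gs A p s t v η w' w with hT
  have hTm : pm p (H \ T) ≤ η ^ 2 * pm p H := gs_mass hp hη hg.le'
  obtain ⟨W, hWK, hWm, hWd⟩ := small_window (p := p) hvt (by omega) w hKpos
  have hWpos : 0 < pm p W := by
    by_contra h
    push Not at h
    have h1 : 64 * 4 ^ (t - v) * pm p W ≤ 0 := mul_nonpos_of_nonneg_of_nonpos (by positivity) h
    linarith
  have hPW : pm p H ≤ 128 * 4 ^ (t - v) * pm p W := by linarith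
  have h2v : (2 : ℤ) ^ v = 8 * 2 ^ (v - 3) := by
    have : v = (v - 3) + 3 := by omega
    conv_lhs => rw [this]
    rw [pow_add]
    ring
  -- (b)
  have hWT : pm p (W \ T) ≤ pm p W / 16 := by
    have h1 : pm p (W \ T) ≤ pm p (H \ T) :=
      cv_mono hp (Finset.sdiff_subset_sdiff (hWK.trans hKH) subset_rfl)
    have h2 : η ^ 2 * pm p H ≤ η ^ 2 * (128 * 4 ^ (t - v) * pm p W) :=
      mul_le_mul_of_nonneg_left hPW (by positivity)
    have h3 : η ^ 2 * (128 * 4 ^ (t - v) * pm p W) = (η * (η * 4 ^ (t - v))) * (128 * pm p W) := by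
      ring
    have h4 : η * (η * 4 ^ (t - v)) ≤ 1 / 2048 := by
      have h5 : 0 < η * 4 ^ (t - v) := by positivity
      nlinarith
    have h5 : (η * (η * 4 ^ (t - v))) * (128 * pm p W) ≤ 1 / 2048 * (128 * pm p W) :=
      mul_le_mul_of_nonneg_right h4 (by positivity)
    linarith
  have hsplit : pm p (W ∩ T) + pm p (W \ T) = pm p W := Finset.sum_inter_add_sum_sdiff W T p
  have hWTne : ∃ x₀, x₀ ∈ W ∧ x₀ ∈ T := by
    by_contra hcon
    push Not at hcon
    have h1 : W ∩ T = ∅ := by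
      refine Finset.eq_empty_of_forall_notMem fun x hx => ?_
      rw [Finset.mem_inter] at hx
      exact hcon x hx.1 hx.2
    have h2 : pm p (W ∩ T) = 0 := by
      rw [h1]
      simp [pm]
    linarith
  obtain ⟨x₀, hx₀W, hx₀T⟩ := hWTne
  -- (c)
  set N : G → Finset G := fun x => K'.filter (fun x' => ¬ ∃ y ∈ A,
    |(y - x' - (x₀ - x)).1| < 2 ^ s ∧ |(y - x' - (x₀ - x)).2| < 2 ^ s) with hN
  have hNm : ∀ x ∈ W ∩ T, pm p (N x) ≤ 4 * η * pm p K' := by
    intro x hx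
    rw [Finset.mem_inter] at hx
    have hd := hWd x₀ hx₀W x hx.1
    have hm0 : (0 : ℤ) < 2 ^ (v - 3) := by positivity
    obtain ⟨ζ, z1, z2, z3⟩ := shift1 hη h8 hx₀T hx.2
      (by rw [h2v]; linarith [hd.1]) (by rw [h2v]; linarith [hd.2])
    have h1 := part_of hp hst hη z1 z2 hg.reg' z3
    have h2 : pm p (N x) ≤ 2 * η * pm p H' := by
      refine le_trans (cv_mono hp ?_) h1
      intro x' hx'
      rw [hN, Finset.mem_filter] at hx'
      rw [Finset.mem_filter]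
      exact hx'
    have h3 : 2 * η * pm p H' ≤ 2 * η * (2 * pm p K') :=
      mul_le_mul_of_nonneg_left hPK' (by positivity)
    linarith
  have hdouble : ∑ x' ∈ K', p x' * pm p ((W ∩ T).filter fun x => x' ∈ N x) ≤
      4 * η * pm p K' * pm p W := by
    have h1 : ∑ x' ∈ K', p x' * pm p ((W ∩ T).filter fun x => x' ∈ N x) =
        ∑ x ∈ W ∩ T, p x * pm p (N x) := by
      have e1 : ∀ x' ∈ K', p x' * pm p ((W ∩ T).filter fun x => x' ∈ N x) =
          ∑ x ∈ W ∩ T, if x' ∈ N x then p x' * p x else 0 := by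
        intro x' _
        unfold pm
        rw [Finset.mul_sum, Finset.sum_filter]
      have e2 : ∀ x ∈ W ∩ T, p x * pm p (N x) =
          ∑ x' ∈ K', if x' ∈ N x then p x' * p x else 0 := by
        intro x _
        unfold pm
        rw [Finset.mul_sum, ← Finset.sum_filter]
        have e3 : K'.filter (fun x' => x' ∈ N x) = N x := by
          ext x'
          rw [Finset.mem_filter]
          exact ⟨fun h => h.2, fun h => ⟨(Finset.mem_filter.1 h).1, h⟩⟩
        rw [e3]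
        exact Finset.sum_congr rfl fun _ _ => mul_comm _ _
      rw [Finset.sum_congr rfl e1, Finset.sum_congr rfl e2, Finset.sum_comm]
    rw [h1]
    have h2 : ∑ x ∈ W ∩ T, p x * pm p (N x) ≤ ∑ x ∈ W ∩ T, p x * (4 * η * pm p K') :=
      Finset.sum_le_sum fun x hx => mul_le_mul_of_nonneg_left (hNm x hx) (hp.nonneg x)
    rw [← Finset.sum_mul] at h2
    have h3 : (∑ x ∈ W ∩ T, p x) ≤ pm p W := cv_mono hp Finset.inter_subset_left
    have h4 : (∑ x ∈ W ∩ T, p x) * (4 * η * pm p K') ≤ pm p W * (4 * η * pm p K') :=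
      mul_le_mul_of_nonneg_right h3 (by positivity)
    linarith
  have hx₀' : ∃ x₀' ∈ K', pm p ((W ∩ T).filter fun x => x₀' ∈ N x) ≤ 4 * η * pm p W := by
    by_contra hcon
    push Not at hcon
    have h1 : ∃ x' ∈ K', 0 < p x' := by
      by_contra hc2
      push Not at hc2
      have : pm p K' ≤ 0 := Finset.sum_nonpos hc2
      linarith
    obtain ⟨x', hx', hpx'⟩ := h1
    have h2 : ∑ x' ∈ K', p x' * (4 * η * pm p W) <
        ∑ x' ∈ K', p x' * pm p ((W ∩ T).filter fun x => x' ∈ N x) := by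
      refine Finset.sum_lt_sum (fun i hi => mul_le_mul_of_nonneg_left (hcon i hi).le (hp.nonneg i))
        ⟨x', hx', mul_lt_mul_of_pos_left (hcon x' hx') hpx'⟩
    rw [← Finset.sum_mul] at h2
    have h3 : (∑ x' ∈ K', p x') * (4 * η * pm p W) = 4 * η * pm p K' * pm p W := by
      unfold pm
      ring
    linarith
  obtain ⟨x₀', hx₀'K, hx₀'m⟩ := hx₀'
  -- (d)
  refine ⟨toC (x₀ + x₀'), ?_⟩
  rintro d ⟨a, ha, b, hb, hd, hdn⟩
  have hc1 : 4 * |(a - b).1| ≤ 2 ^ v := by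
    have h1 := abs_fst_le (a - b)
    rw [← hd] at h1
    have h2 : (4 : ℝ) * |((a - b).1 : ℝ)| ≤ 2 ^ v := by
      have h3 : 0 ≤ ‖d‖ := norm_nonneg d
      linarith
    exact_mod_cast h2
  have hc2 : 4 * |(a - b).2| ≤ 2 ^ v := by
    have h1 := abs_snd_le (a - b)
    rw [← hd] at h1
    have h2 : (4 : ℝ) * |((a - b).2 : ℝ)| ≤ 2 ^ v := by
      have h3 : 0 ≤ ‖d‖ := norm_nonneg d
      linarith
    exact_mod_cast h2
  obtain ⟨ζ, z1, z2, z3⟩ := shift1 hη h8 ha hb hc1 hc2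
  have hpart := part_of hp hst hη z1 z2 hg.reg z3
  set R : Finset G := W.filter (fun x => ¬ ∃ y ∈ A,
    |(y - x - (a - b)).1| < 2 ^ s ∧ |(y - x - (a - b)).2| < 2 ^ s) with hR
  have hRm : pm p R ≤ pm p W / 8 := by
    have h1 : pm p R ≤ 2 * η * pm p H := by
      refine le_trans (cv_mono hp ?_) hpart
      intro x hx
      rw [hR, Finset.mem_filter] at hx
      rw [Finset.mem_filter]
      exact ⟨hWK hx.1, hx.2⟩
    have h2 : 2 * η * pm p H ≤ 2 * η * (128 * 4 ^ (t - v) * pm p W) :=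
      mul_le_mul_of_nonneg_left hPW (by positivity)
    have h3 : 2 * η * (128 * 4 ^ (t - v) * pm p W) = (η * 4 ^ (t - v)) * (256 * pm p W) := by ring
    have h4 : (η * 4 ^ (t - v)) * (256 * pm p W) ≤ 1 / 2048 * (256 * pm p W) :=
      mul_le_mul_of_nonneg_right (by linarith) (by positivity)
    linarith
  have hex : ∃ x ∈ W ∩ T, x ∉ R ∧ x₀' ∉ N x := by
    by_contra hcon
    push Not at hcon
    have h1 : W ⊆ (W \ T) ∪ (R ∪ (W ∩ T).filter fun x => x₀' ∈ N x) := by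
      intro x hx
      by_cases hxT : x ∈ T
      · have hxi : x ∈ W ∩ T := Finset.mem_inter.2 ⟨hx, hxT⟩
        by_cases hxR : x ∈ R
        · exact Finset.mem_union_right _ (Finset.mem_union_left _ hxR)
        · exact Finset.mem_union_right _ (Finset.mem_union_right _
            (Finset.mem_filter.2 ⟨hxi, hcon x hxi hxR⟩))
      · exact Finset.mem_union_left _ (Finset.mem_sdiff.2 ⟨hx, hxT⟩)
    have hun : ∀ S S' : Finset G, pm p (S ∪ S') ≤ pm p S + pm p S' := by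
      intro S S'
      have h2 : pm p (S ∪ S') + pm p (S ∩ S') = pm p S + pm p S' := Finset.sum_union_inter
      have h3 := cv_nonneg hp (S ∩ S')
      linarith
    have h2 := (cv_mono hp h1).trans (hun _ _)
    have h3 := hun R ((W ∩ T).filter fun x => x₀' ∈ N x)
    have h4 : 4 * η * pm p W ≤ 1 / 4 * pm p W := mul_le_mul_of_nonneg_right (by linarith) hWpos.le
    linarith
  obtain ⟨x, hxi, hxR, hxN⟩ := hex
  rw [Finset.mem_inter] at hxi
  have hy : ∃ y ∈ A, |(y - x - (a - b)).1| < 2 ^ s ∧ |(y - x - (a - b)).2| < 2 ^ s := by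
    by_contra hcon
    exact hxR (Finset.mem_filter.2 ⟨hxi.1, hcon⟩)
  have hy' : ∃ y ∈ A, |(y - x₀' - (x₀ - x)).1| < 2 ^ s ∧ |(y - x₀' - (x₀ - x)).2| < 2 ^ s := by
    by_contra hcon
    exact hxN (Finset.mem_filter.2 ⟨hx₀'K, hcon⟩)
  obtain ⟨y, hyA, y1, y2⟩ := hy
  obtain ⟨y', hyA', y1', y2'⟩ := hy'
  refine ⟨y + y', Finset.add_mem_add hyA hyA', ?_⟩
  have hz : toC (y + y') - (toC (x₀ + x₀') + d) =
      toC ((y - x - (a - b)) + (y' - x₀' - (x₀ - x))) := by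
    rw [hd, ← toC_add, ← toC_sub]
    congr 1
    abel
  rw [hz]
  have hf : |((y - x - (a - b)) + (y' - x₀' - (x₀ - x))).1| < 2 * 2 ^ s := by
    rw [Prod.fst_add]
    refine (abs_add_le _ _).trans_lt ?_
    linarith
  have hs : |((y - x - (a - b)) + (y' - x₀' - (x₀ - x))).2| < 2 * 2 ^ s := by
    rw [Prod.snd_add]
    refine (abs_add_le _ _).trans_lt ?_
    linarith
  refine (norm_toC_lt hf hs).trans (le_of_eq ?_)
  push_cast
  ring

end Pool.Agent.Work.MP_0d53be_an.Full
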