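import Mathlib

/-!
# F/Ent: entropy of a vector concentrated on a small set

`ent_le`: `a ≥ 0` on a finite set `U`, `M = ∑_{U} a`, `S ⊆ U`, `card S ≤ N`, `1 ≤ N`. Then
`∑_U negMulLog a - negMulLog M ≤ M (log N + log 2) + (∑_{U \ S} a) log (card U)`.

Proof. If `U` is empty or `M = 0` all `a` vanish and both sides are `0` or the right side is
nonnegative. Let `β = ∑_{U \ S} a`, `M - β = ∑_S a`.
Jensen (`negMulLog` concave on `[0, ∞)`, `ConcaveOn.le_map_sum`): for a nonempty finite set `V` of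
cardinality `n` with `∑_V a = m`: `∑_V negMulLog a ≤ n negMulLog (m/n) = negMulLog m + m log n`.
Apply to `S` (if nonempty; then `log n ≤ log N`) and to `U \ S` (if nonempty, `n ≤ card U`):
`∑_U negMulLog a ≤ negMulLog (M-β) + (M-β) log N + negMulLog β + β log (card U)`.
Finally `negMulLog (M-β) + negMulLog β - negMulLog M ≤ M log 2`: Jensen for the two point set
`{M-β, β}`. And `(M-β) log N ≤ M log N`.
-/

set_option autoImplicit false

namespace Pool.Agent.Work.MP_0d53be_an.Full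

private theorem ent_aux {ι : Type*} (V : Finset ι) (a : ι → ℝ) (ha : ∀ u ∈ V, 0 ≤ a u)
    {N : ℝ} (hN : 1 ≤ N) (hc : (V.card : ℝ) ≤ N) :
    ∑ u ∈ V, Real.negMulLog (a u) ≤
      Real.negMulLog (∑ u ∈ V, a u) + (∑ u ∈ V, a u) * Real.log N := by
  rcases V.eq_empty_or_nonempty with rfl | hV
  · simp
  have hn : (0 : ℝ) < V.card := by exact_mod_cast hV.card_pos
  have hm0 : 0 ≤ ∑ u ∈ V, a u := Finset.sum_nonneg ha
  have hJ := Real.concaveOn_negMulLog.le_map_sum (t := V) (w := fun _ => (V.card : ℝ)⁻¹) (p := a)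
    (fun _ _ => inv_nonneg.2 hn.le)
    (by rw [Finset.sum_const, nsmul_eq_mul, mul_inv_cancel₀ hn.ne'])
    (fun i hi => ha i hi)
  simp only [smul_eq_mul] at hJ
  rw [← Finset.mul_sum, ← Finset.mul_sum] at hJ
  have h1 : ∑ u ∈ V, Real.negMulLog (a u) ≤
      V.card * Real.negMulLog ((V.card : ℝ)⁻¹ * ∑ u ∈ V, a u) := by
    have h2 := mul_le_mul_of_nonneg_left hJ hn.le
    rwa [← mul_assoc, mul_inv_cancel₀ hn.ne', one_mul] at h2
  have h3 : V.card * Real.negMulLog ((V.card : ℝ)⁻¹ * ∑ u ∈ V, a u) =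
      Real.negMulLog (∑ u ∈ V, a u) + (∑ u ∈ V, a u) * Real.log V.card := by
    rw [Real.negMulLog_mul]
    unfold Real.negMulLog
    rw [Real.log_inv]
    field_simp
    ring
  rw [h3] at h1
  have h4 : Real.log V.card ≤ Real.log N := Real.log_le_log hn hc
  nlinarith [mul_le_mul_of_nonneg_left h4 hm0]

open Classical in
theorem ent_le {ι : Type*} (U S : Finset ι) (hS : S ⊆ U) (a : ι → ℝ) (ha : ∀ u ∈ U, 0 ≤ a u)
    {N : ℝ} (hN : 1 ≤ N) (hc : (S.card : ℝ) ≤ N) :
    ∑ u ∈ U, Real.negMulLog (a u) - Real.negMulLog (∑ u ∈ U, a u) ≤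
      (∑ u ∈ U, a u) * (Real.log N + Real.log 2) + (∑ u ∈ U \ S, a u) * Real.log U.card := by
  rcases U.eq_empty_or_nonempty with rfl | hU
  · have : S = ∅ := Finset.subset_empty.1 hS
    subst this
    simp
  have hcU : (1 : ℝ) ≤ U.card := by exact_mod_cast hU.card_pos
  set x := ∑ u ∈ S, a u with hx
  set y := ∑ u ∈ U \ S, a u with hy
  have hx0 : 0 ≤ x := Finset.sum_nonneg fun u hu => ha u (hS hu)
  have hy0 : 0 ≤ y := Finset.sum_nonneg fun u hu => ha u (Finset.mem_sdiff.1 hu).1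
  have hxy : ∑ u ∈ U, a u = x + y := by
    rw [hx, hy, add_comm]
    exact (Finset.sum_sdiff hS).symm
  have hxy' : ∑ u ∈ U, Real.negMulLog (a u) =
      ∑ u ∈ S, Real.negMulLog (a u) + ∑ u ∈ U \ S, Real.negMulLog (a u) := by
    rw [add_comm]
    exact (Finset.sum_sdiff hS).symm
  have h1 := ent_aux S a (fun u hu => ha u (hS hu)) hN hc
  have h2 := ent_aux (U \ S) a (fun u hu => ha u (Finset.mem_sdiff.1 hu).1) hcU
    (by exact_mod_cast Finset.card_le_card Finset.sdiff_subset)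
  have h3 := ent_aux (Finset.univ : Finset (Fin 2)) ![x, y]
    (by intro u _; fin_cases u <;> simp [hx0, hy0]) (N := 2) (by norm_num) (by simp)
  simp only [Fin.sum_univ_two, Matrix.cons_val_zero, Matrix.cons_val_one] at h3
  rw [← hx] at h1
  rw [← hy] at h2
  rw [hxy, hxy']
  have h4 : 0 ≤ y * Real.log N := mul_nonneg hy0 (Real.log_nonneg hN)
  linarith

end Pool.Agent.Work.MP_0d53be_an.Full
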