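import Pool.Agent.Work.MP_0d53be_an.Full.F.Win
import Pool.Agent.Work.MP_0d53be_an.Full.E.Conv

/-!
# F/Gs: good points

* `gs_mass`: Markov's inequality. `avgEE w w' = ∑_{x ∈ hull w'} p x avgE w x ≤ η^4 P`,
  `P = pm p (hull v t w')`. The points `x ∈ hull w'` not in `Gs` have `p x = 0` (not in `A`) or
  `avgE w x > η²`. So `η² pm (hull w' \ Gs) ≤ avgEE w w' ≤ η^4 P`; divide by `η²`.
* `mass_of_win`: for a regular window `w` and `ζ ∈ win v w`:
  `0 < mass p t ζ` and `pm p (hull v t w) ≤ 2 mass p t ζ`, since the core is contained in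
  `{ζ - b : b ∈ box t}` (`core_sub_box`).
* `bad_anchor`: for `x ∈ Gs A p s t v η w w'`: `∑_{ζ ∈ win v w} err ζ x ≤ η² 4^v` with `err ≥ 0`,
  so at most `η 4^v` of the `ζ ∈ win v w` have `err ζ x > η` (Markov).
* `kap_close`: if `ζ, ζ + (x - y)`, and `err ζ x ≤ η`, `err (ζ + (x - y)) y ≤ η`, then
  `∑_u |kap ζ u - kap (ζ + (x - y)) u| ≤ 2 η`, because both profiles are compared with the same
  profile `kap (conv A p) (ζ + x)`: `(ζ + (x - y)) + y = ζ + x`.
-/

set_option autoImplicit false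

namespace Pool.Agent.Work.MP_0d53be_an.Full

open scoped Pointwise

variable {A : Finset G} {p : G → ℝ}

private theorem avgE_nonneg (A : Finset G) (p : G → ℝ) (s t v : ℕ) (w x : G) :
    0 ≤ avgE A p s t v w x := by
  unfold avgE
  exact div_nonneg (Finset.sum_nonneg fun ζ _ => err_nonneg A p s t ζ x) (by positivity)

open Classical in
theorem gs_mass (hp : Prb A p) {s t v : ℕ} {η : ℝ} (hη : 0 < η) {w w' : G}
    (h : avgEE A p s t v w w' ≤ η ^ 4 * pm p (hull v t w')) :
    pm p (hull v t w' \ Gs A p s t v η w w') ≤ η ^ 2 * pm p (hull v t w') := by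
  have h1 : η ^ 2 * pm p (hull v t w' \ Gs A p s t v η w w') ≤ avgEE A p s t v w w' := by
    unfold pm avgEE
    rw [Finset.mul_sum]
    refine le_trans (Finset.sum_le_sum (g := fun x => p x * avgE A p s t v w x) fun x hx => ?_)
      (Finset.sum_le_sum_of_subset_of_nonneg Finset.sdiff_subset fun x _ _ =>
        mul_nonneg (hp.nonneg x) (avgE_nonneg A p s t v w x))
    rw [Finset.mem_sdiff] at hx
    unfold Gs at hx
    rw [Finset.mem_filter] at hx
    by_cases hxA : x ∈ A
    · have h2 : η ^ 2 < avgE A p s t v w x := by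
        by_contra hc
        exact hx.2 ⟨hx.1, hxA, not_lt.1 hc⟩
      rw [mul_comm (η ^ 2)]
      exact mul_le_mul_of_nonneg_left h2.le (hp.nonneg x)
    · rw [hp.supp x hxA, mul_zero, zero_mul]
  have h2 : η ^ 2 * pm p (hull v t w' \ Gs A p s t v η w w') ≤
      η ^ 2 * (η ^ 2 * pm p (hull v t w')) := by
    refine h1.trans (h.trans (le_of_eq ?_))
    ring
  exact le_of_mul_le_mul_left h2 (by positivity)

theorem mass_of_win (hp : Prb A p) {v t : ℕ} {w ζ : G} (hr : Reg p v t w) (hζ : ζ ∈ win v w) :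
    0 < mass p t ζ ∧ pm p (hull v t w) ≤ 2 * mass p t ζ := by
  classical
  have h1 : pm p (core v t w) ≤ mass p t ζ := by
    unfold pm mass
    have hinj : Function.Injective fun x : G => ζ - x := sub_right_injective
    have h2 : ∑ b ∈ (core v t w).image (fun x : G => ζ - x), p (ζ - b) = ∑ x ∈ core v t w, p x := by
      rw [Finset.sum_image fun a _ b _ hab => hinj hab]
      refine Finset.sum_congr rfl fun x _ => ?_
      rw [sub_sub_cancel]
    rw [← h2]
    refine Finset.sum_le_sum_of_subset_of_nonneg ?_ fun _ _ _ => hp.nonneg _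
    intro b hb
    obtain ⟨x, hx, rfl⟩ := Finset.mem_image.1 hb
    exact core_sub_box hζ hx
  exact ⟨lt_of_lt_of_le hr.1 h1, hr.2.trans (by linarith)⟩

open Classical in
theorem bad_anchor {s t v : ℕ} {η : ℝ} (hη : 0 < η) {w w' x : G}
    (hx : x ∈ Gs A p s t v η w w') :
    (((win v w).filter (fun ζ => η < err A p s t ζ x)).card : ℝ) ≤ η * 4 ^ v := by
  unfold Gs at hx
  rw [Finset.mem_filter] at hx
  have h1 := hx.2.2
  unfold avgE at h1
  have h4 : (0 : ℝ) < 4 ^ v := by positivity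
  rw [div_le_iff₀ h4] at h1
  have h2 : (((win v w).filter (fun ζ => η < err A p s t ζ x)).card : ℝ) * η ≤
      ∑ ζ ∈ win v w, err A p s t ζ x := by
    rw [← nsmul_eq_mul]
    refine le_trans (Finset.card_nsmul_le_sum _ (fun ζ => err A p s t ζ x) η fun ζ hζ =>
      (Finset.mem_filter.1 hζ).2.le) ?_
    exact Finset.sum_le_sum_of_subset_of_nonneg (Finset.filter_subset _ _) fun ζ _ _ =>
      err_nonneg A p s t ζ x
  have h3 : (((win v w).filter (fun ζ => η < err A p s t ζ x)).card : ℝ) * η ≤ η * 4 ^ v * η := by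
    refine h2.trans (h1.trans (le_of_eq ?_))
    ring
  exact le_of_mul_le_mul_right h3 hη

theorem kap_close {s t : ℕ} {η : ℝ} {ζ x y : G} (h1 : err A p s t ζ x ≤ η)
    (h2 : err A p s t (ζ + (x - y)) y ≤ η) :
    ∑ u ∈ box (t - s), |kap p s t ζ u - kap p s t (ζ + (x - y)) u| ≤ 2 * η := by
  unfold err at h1 h2
  have h3 : ζ + (x - y) + y = ζ + x := by abel
  rw [h3] at h2
  have h4 : ∑ u ∈ box (t - s), |kap p s t ζ u - kap p s t (ζ + (x - y)) u| ≤
      ∑ u ∈ box (t - s), |kap p s t ζ u - kap (conv A p) s t (ζ + x) u| +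
      ∑ u ∈ box (t - s), |kap p s t (ζ + (x - y)) u - kap (conv A p) s t (ζ + x) u| := by
    rw [← Finset.sum_add_distrib]
    refine Finset.sum_le_sum fun u _ => ?_
    rw [abs_sub_comm (kap p s t (ζ + (x - y)) u)]
    exact abs_sub_le _ _ _
  linarith

end Pool.Agent.Work.MP_0d53be_an.Full
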