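import Pool.Agent.Work.MP_0d53be_an.Full.F.Choose
import Pool.Agent.Work.MP_0d53be_an.Full.F.Gs
import Pool.Agent.Work.MP_0d53be_an.Full.F.Ent

/-!
# F/EB: the entropy bound

`cellsMeeting s r z T`: the `u ∈ box (r - s)` whose cell `{z - 2^s u - b : b ∈ box s}` meets `T`.

Let `s ≤ r`, `r + 4 ≤ v`, `v + 4 ≤ t`, `c = t - v`, `drop A p s t ≤ η^16`. Suppose that for every good
pair `(w, w')` and every `z` with `z - b ∈ hull v t w'` for all `b ∈ box r` we have
`card (cellsMeeting s r z (Gs A p s t v η w w')) ≤ N`, `1 ≤ N`. Then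
`hh p s - hh p r ≤ log N + log 2 + (4 η² + 48 η^4 + 64/2^c) (2 (r - s) log 2)`.

Proof. Take `w` from `choose_win`. `P(w') = pm p (hull v t w')`. By `hh_diff`,
`hh p s - hh p r = 4^(-r) ∑' z, H(z)`, `H(z) = ∑_{u ∈ box (r-s)} n(mass p s (z - 2^s u)) - n(mass p r z)`,
`n = negMulLog`. For every `z` let `N_z` be the set of the `w'` with `z - box r ⊆ hull v t w'`.
`#N_z ≥ 4^c`: in each coordinate the condition is `2^v w_i - 2^t < z_i - 2^r + 1` and
`z_i < 2^v w_i + 2^v`, i.e. `w_i` in the open interval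
`((z_i - 2^v)/2^v, (z_i - 2^r + 1 + 2^t)/2^v)` of length `2^c + 1 - (2^r - 1)/2^v`, which is `> 2^c`
(as `2^r ≤ 2^v`), and an open interval of length `> 2^c` contains at least `2^c` integers.
For `w' ∈ N_z`: with `U = box (r - s)`, `a_u = mass p s (z - 2^s u)`, `∑ a = mass p r z`
(`mass_split`), `card U = 4^(r-s)`, `log card U = 2 (r-s) log 2 =: Λ`:
* if `(w, w')` is good: `ent_le` with `S = cellsMeeting s r z Gs` gives
  `H(z) ≤ mass p r z (log N + log 2) + pm p ((z - box r) \ Gs) Λ` (the cells not in `S` consist of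
  points of `z - box r` outside `Gs`);
* otherwise: `ent_le` with `S = ∅`: `H(z) ≤ mass p r z (log N + log 2) + mass p r z Λ`.
(Both bounds are `≥ 0`.) So `4^c H(z) ≤ ∑_{w' ∈ N_z}` of these bounds is false in general if `#N_z` is
larger; instead average: `H(z) ≤ (1/#N_z) ∑_{w' ∈ N_z} bound(w', z)
= mass p r z (log N + log 2) + (Λ/#N_z) ∑_{w' ∈ N_z} bad(w', z)
≤ mass p r z (log N + log 2) + (Λ/4^c) ∑_{w' ∈ N_z} bad(w', z)`, where `bad(w', z) ≥ 0` is
`pm p ((z - box r) \ Gs)` or `mass p r z`. Sum over `z`, divide by `4^r`: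
`hh p s - hh p r ≤ log N + log 2 + (Λ/4^c) 4^(-r) ∑_{w'} ∑_{z : z - box r ⊆ hull w'} bad(w', z)`.
For `w'` good, each `x ∈ hull w' \ Gs` is counted for at most `card (box r) = 4^r` points `z`, so
the inner sum is at most `4^r pm (hull w' \ Gs) ≤ 4^r η² P(w')` (`gs_mass`); for `w'` not good it is
at most `4^r P(w')`. Hence the last term is at most
`(Λ/4^c) (η² ∑' P(w') + ∑' [not good] P(w')) ≤ Λ (4 η² + 48 η^4 + 64/2^c)`
(`hull_sum_le`, `choose_win`).
-/

set_option autoImplicit false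

namespace Pool.Agent.Work.MP_0d53be_an.Full

open scoped Pointwise

variable {A : Finset G} {p : G → ℝ}

open Classical in
/-- The cells of `z - box r` which meet `T`. -/
noncomputable def cellsMeeting (s r : ℕ) (z : G) (T : Finset G) : Finset G :=
  (box (r - s)).filter (fun u => ∃ b ∈ box s, z - (2 : ℤ) ^ s • u - b ∈ T)

/-- the starting point of the windows of `z` -/
private noncomputable def Wz (v c : ℕ) (z : G) : Finset G :=
  Finset.Ico (z.1 / 2 ^ v) (z.1 / 2 ^ v + 2 ^ c) ×ˢ Finset.Ico (z.2 / 2 ^ v) (z.2 / 2 ^ v + 2 ^ c)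

private theorem card_Wz (v c : ℕ) (z : G) : (Wz v c z).card = 4 ^ c := by
  unfold Wz
  rw [Finset.card_product, Int.card_Ico, Int.card_Ico]
  have e : ∀ q : ℤ, (q + 2 ^ c - q).toNat = 2 ^ c := by
    intro q
    rw [add_sub_cancel_left]
    have : ((2 : ℤ) ^ c) = ((2 ^ c : ℕ) : ℤ) := by push_cast; rfl
    rw [this, Int.toNat_natCast]
  rw [e, e, ← mul_pow]
  norm_num

private theorem Wz_coord {r v t : ℕ} (hrv : r ≤ v) (hvt : v ≤ t) {z w b : ℤ}
    (h1 : z / 2 ^ v ≤ w) (h2 : w < z / 2 ^ v + 2 ^ (t - v)) (hb0 : 0 ≤ b) (hb1 : b < 2 ^ r) :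
    2 ^ v * w - 2 ^ t < z - b ∧ z - b < 2 ^ v * w + 2 ^ v := by
  have hpos : (0 : ℤ) < 2 ^ v := by positivity
  have ht : (2 : ℤ) ^ t = 2 ^ v * 2 ^ (t - v) := by
    rw [← pow_add]
    congr 1
    omega
  have hrv' : (2 : ℤ) ^ r ≤ 2 ^ v := pow_le_pow_right₀ (by norm_num) hrv
  have hq1 := Int.mul_ediv_self_le (x := z) (k := 2 ^ v) hpos.ne'
  have hq2 := Int.lt_mul_ediv_self_add (x := z) (k := 2 ^ v) hpos
  have h3 : (2 : ℤ) ^ v * (w + 1) ≤ 2 ^ v * (z / 2 ^ v + 2 ^ (t - v)) :=
    mul_le_mul_of_nonneg_left (by omega) hpos.le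
  have h4 : (2 : ℤ) ^ v * (z / 2 ^ v) ≤ 2 ^ v * w := mul_le_mul_of_nonneg_left h1 hpos.le
  rw [mul_add, mul_one, mul_add, ← ht] at h3
  constructor
  · linarith
  · linarith

private theorem Wz_mem {r v t : ℕ} (hrv : r ≤ v) (hvt : v ≤ t) {z w : G}
    (hw : w ∈ Wz v (t - v) z) : ∀ b ∈ box r, z - b ∈ hull v t w := by
  intro b hb
  rw [mem_box] at hb
  unfold Wz at hw
  rw [Finset.mem_product, Finset.mem_Ico, Finset.mem_Ico] at hw
  unfold hull
  rw [Finset.mem_product, Finset.mem_Ioo, Finset.mem_Ioo]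
  exact ⟨Wz_coord hrv hvt hw.1.1 hw.1.2 hb.1.1 hb.1.2, Wz_coord hrv hvt hw.2.1 hw.2.2 hb.2.1 hb.2.2⟩

open Classical in
/-- the bad part of `p` -/
private noncomputable def gg (A : Finset G) (p : G → ℝ) (s t v : ℕ) (η : ℝ) (w w' x : G) : ℝ :=
  if GoodPair A p s t v η w w' then (if x ∈ Gs A p s t v η w w' then 0 else p x) else p x

private theorem gg_nonneg (hp : Prb A p) (s t v : ℕ) (η : ℝ) (w w' x : G) :
    0 ≤ gg A p s t v η w w' x := by
  unfold gg
  split_ifs
  · exact le_rfl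
  · exact hp.nonneg x
  · exact hp.nonneg x

private theorem pm_nonneg (hp : Prb A p) (T : Finset G) : 0 ≤ pm p T :=
  Finset.sum_nonneg fun x _ => hp.nonneg x

open Classical in
private theorem gg_sum (hp : Prb A p) {s t v : ℕ} {η : ℝ} (hη : 0 < η) (w w' : G) :
    ∑ x ∈ hull v t w', gg A p s t v η w w' x ≤ η ^ 2 * pm p (hull v t w') +
      (if GoodPair A p s t v η w w' then 0 else pm p (hull v t w')) := by
  have hP := pm_nonneg hp (hull v t w')
  by_cases h : GoodPair A p s t v η w w'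
  · rw [if_pos h, add_zero]
    refine le_trans (le_of_eq ?_) (gs_mass hp hη h.le)
    unfold pm
    rw [Finset.sdiff_eq_filter, Finset.sum_filter]
    refine Finset.sum_congr rfl fun x _ => ?_
    unfold gg
    rw [if_pos h]
    by_cases hx : x ∈ Gs A p s t v η w w'
    · rw [if_pos hx, if_neg (not_not.2 hx)]
    · rw [if_neg hx, if_pos hx]
  · rw [if_neg h]
    have e : ∑ x ∈ hull v t w', gg A p s t v η w w' x = pm p (hull v t w') := by
      unfold pm
      refine Finset.sum_congr rfl fun x _ => ?_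
      unfold gg
      rw [if_neg h]
    rw [e]
    have : 0 ≤ η ^ 2 * pm p (hull v t w') := mul_nonneg (sq_nonneg _) hP
    linarith

private theorem ent_le_aux {ι : Type*} [inst : DecidableEq ι] (U S : Finset ι) (hS : S ⊆ U)
    (a : ι → ℝ) (ha : ∀ u ∈ U, 0 ≤ a u) {N : ℝ} (hN : 1 ≤ N) (hc : (S.card : ℝ) ≤ N) :
    ∑ u ∈ U, Real.negMulLog (a u) - Real.negMulLog (∑ u ∈ U, a u) ≤
      (∑ u ∈ U, a u) * (Real.log N + Real.log 2) + (∑ u ∈ U \ S, a u) * Real.log U.card := by
  have hi : inst = fun a b => Classical.propDecidable (a = b) := Subsingleton.elim _ _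
  subst hi
  exact ent_le U S hS a ha hN hc

/-- the estimate of one anchor and one window -/
private theorem point_le (hp : Prb A p) {s r v t : ℕ} (hsr : s ≤ r) {η : ℝ} {N : ℝ} (hN : 1 ≤ N)
    {w w' z : G} (hz : ∀ b ∈ box r, z - b ∈ hull v t w')
    (hcell : GoodPair A p s t v η w w' → (∀ b ∈ box r, z - b ∈ hull v t w') →
      ((cellsMeeting s r z (Gs A p s t v η w w')).card : ℝ) ≤ N) :
    ∑ u ∈ box (r - s), Real.negMulLog (mass p s (z - (2 : ℤ) ^ s • u)) -
      Real.negMulLog (mass p r z) ≤ mass p r z * (Real.log N + Real.log 2) +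
      mass (gg A p s t v η w w') r z * (2 * (r - s : ℕ) * Real.log 2) := by
  classical
  have hcard : Real.log ((box (r - s)).card : ℝ) = 2 * (r - s : ℕ) * Real.log 2 := by
    rw [card_box]
    push_cast
    rw [Real.log_pow, show (4 : ℝ) = 2 ^ 2 by norm_num, Real.log_pow]
    push_cast
    ring
  have hlog : 0 ≤ Real.log ((box (r - s)).card : ℝ) := Real.log_natCast_nonneg _
  have hms := mass_split p hsr z
  by_cases h : GoodPair A p s t v η w w'
  · have h1 := ent_le_aux (box (r - s)) (cellsMeeting s r z (Gs A p s t v η w w'))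
      (Finset.filter_subset _ _) (fun u => mass p s (z - (2 : ℤ) ^ s • u))
      (fun u _ => mass_nonneg hp s _) hN (hcell h hz)
    rw [← hms] at h1
    refine h1.trans ?_
    rw [← hcard]
    refine add_le_add le_rfl (mul_le_mul_of_nonneg_right ?_ hlog)
    rw [mass_split (gg A p s t v η w w') hsr z]
    refine le_trans (Finset.sum_le_sum (g := fun u => mass (gg A p s t v η w w') s
      (z - (2 : ℤ) ^ s • u)) fun u hu => ?_) (Finset.sum_le_sum_of_subset_of_nonneg
        Finset.sdiff_subset fun u _ _ => ?_)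
    · rw [Finset.mem_sdiff] at hu
      refine Finset.sum_le_sum fun b hb => ?_
      have hx : z - (2 : ℤ) ^ s • u - b ∉ Gs A p s t v η w w' := by
        intro hx
        apply hu.2
        unfold cellsMeeting
        rw [Finset.mem_filter]
        exact ⟨hu.1, b, hb, hx⟩
      unfold gg
      rw [if_pos h, if_neg hx]
    · exact Finset.sum_nonneg fun b _ => gg_nonneg hp s t v η w w' _
  · have h1 := ent_le_aux (box (r - s)) ∅ (Finset.empty_subset _)
      (fun u => mass p s (z - (2 : ℤ) ^ s • u)) (fun u _ => mass_nonneg hp s _) hN (by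
        rw [Finset.card_empty]
        push_cast
        linarith)
    rw [← hms, Finset.sdiff_empty, ← hms, hcard] at h1
    have e : gg A p s t v η w w' = p := by
      funext x
      unfold gg
      rw [if_neg h]
    rw [e]
    exact h1

theorem ent_bound (hp : Prb A p) {s r v t : ℕ} (hsr : s ≤ r) (hrv : r + 4 ≤ v) (hvt : v + 4 ≤ t)
    {η : ℝ} (hη : 0 < η) (hd : drop A p s t ≤ η ^ 16) {N : ℝ} (hN : 1 ≤ N)
    (hcell : ∀ w w', GoodPair A p s t v η w w' → ∀ z, (∀ b ∈ box r, z - b ∈ hull v t w') →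
      ((cellsMeeting s r z (Gs A p s t v η w w')).card : ℝ) ≤ N) :
    hh p s - hh p r ≤ Real.log N + Real.log 2 +
      (4 * η ^ 2 + 48 * η ^ 4 + 64 / 2 ^ (t - v)) * (2 * (r - s : ℕ) * Real.log 2) := by
  classical
  have hvt' : v ≤ t := by omega
  obtain ⟨w, -, hw⟩ := choose_win hp (s := s) (v := v) (t := t) (by omega) hvt hη hd
  set c := t - v with hc
  set Λ : ℝ := 2 * (r - s : ℕ) * Real.log 2 with hΛ
  have hΛ0 : 0 ≤ Λ := by
    have : 0 ≤ Real.log 2 := Real.log_nonneg (by norm_num)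
    positivity
  set H : G → ℝ := fun z => ∑ u ∈ box (r - s), Real.negMulLog (mass p s (z - (2 : ℤ) ^ s • u)) -
    Real.negMulLog (mass p r z) with hH
  have h4c : (0 : ℝ) < 4 ^ c := by positivity
  have h4r : (0 : ℝ) < 4 ^ r := by positivity
  -- the estimate of one anchor
  have key : ∀ z, H z ≤ mass p r z * (Real.log N + Real.log 2) +
      Λ / 4 ^ c * ∑ w' ∈ Wz v c z, mass (gg A p s t v η w w') r z := by
    intro z
    have h1 : ∑ _w' ∈ Wz v c z, H z ≤ ∑ w' ∈ Wz v c z, (mass p r z * (Real.log N + Real.log 2) +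
        mass (gg A p s t v η w w') r z * Λ) := by
      refine Finset.sum_le_sum fun w' hw' => ?_
      exact point_le hp hsr hN (Wz_mem (by omega) hvt' hw') (fun hg hz => hcell w w' hg z hz)
    rw [Finset.sum_const, card_Wz, Finset.sum_add_distrib, Finset.sum_const, card_Wz,
      nsmul_eq_mul, nsmul_eq_mul, ← Finset.sum_mul] at h1
    push_cast at h1
    rw [← mul_le_mul_iff_right₀ h4c]
    refine h1.trans (le_of_eq ?_)
    rw [mul_add]
    field_simp
  -- the support
  have hsupp : ∀ z, z ∉ (mass_fin hp r).toFinset → H z = 0 := by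
    intro z hz
    rw [Set.Finite.mem_toFinset, Function.mem_support, not_not] at hz
    have hms := mass_split p hsr z
    rw [hz] at hms
    have h0 := (Finset.sum_eq_zero_iff_of_nonneg (fun u _ => mass_nonneg hp s _)).1 hms.symm
    show ∑ u ∈ box (r - s), Real.negMulLog (mass p s (z - (2 : ℤ) ^ s • u)) -
      Real.negMulLog (mass p r z) = 0
    rw [hz, Real.negMulLog_zero, sub_zero]
    refine Finset.sum_eq_zero fun u hu => ?_
    rw [h0 u hu, Real.negMulLog_zero]
  set Z := (mass_fin hp r).toFinset with hZ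
  rw [hh_diff hp hsr]
  have e1 : ∑' z, (∑ u ∈ box (r - s), Real.negMulLog (mass p s (z - (2 : ℤ) ^ s • u)) -
      Real.negMulLog (mass p r z)) = ∑ z ∈ Z, H z := tsum_eq_sum fun z hz => hsupp z hz
  have e2 : ∑ z ∈ Z, mass p r z = 4 ^ r := by
    rw [← tsum_mass hp r]
    symm
    refine tsum_eq_sum fun z hz => ?_
    rw [hZ, Set.Finite.mem_toFinset, Function.mem_support, not_not] at hz
    exact hz
  have e3 : ∑ z ∈ Z, H z ≤ 4 ^ r * (Real.log N + Real.log 2) +
      Λ / 4 ^ c * ∑ z ∈ Z, ∑ w' ∈ Wz v c z, mass (gg A p s t v η w w') r z := by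
    refine (Finset.sum_le_sum fun z _ => key z).trans (le_of_eq ?_)
    rw [Finset.sum_add_distrib, ← Finset.sum_mul, e2, ← Finset.mul_sum]
  -- exchange
  set WW : Finset G := Z.biUnion (Wz v c) with hWW
  have e4 : ∑ z ∈ Z, ∑ w' ∈ Wz v c z, mass (gg A p s t v η w w') r z =
      ∑ w' ∈ WW, ∑ z ∈ Z.filter (fun z => w' ∈ Wz v c z), mass (gg A p s t v η w w') r z := by
    refine Finset.sum_comm' fun z w' => ?_
    rw [Finset.mem_filter, hWW, Finset.mem_biUnion]
    constructor
    · rintro ⟨h1, h2⟩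
      exact ⟨⟨h1, h2⟩, z, h1, h2⟩
    · rintro ⟨⟨h1, h2⟩, -⟩
      exact ⟨h1, h2⟩
  have e5 : ∀ w', ∑ z ∈ Z.filter (fun z => w' ∈ Wz v c z), mass (gg A p s t v η w w') r z ≤
      4 ^ r * ∑ x ∈ hull v t w', gg A p s t v η w w' x := by
    intro w'
    unfold mass
    rw [Finset.sum_comm]
    have h1 : ∀ b ∈ box r, ∑ z ∈ Z.filter (fun z => w' ∈ Wz v c z), gg A p s t v η w w' (z - b) ≤
        ∑ x ∈ hull v t w', gg A p s t v η w w' x := by
      intro b hb
      rw [← Finset.sum_image (f := fun x => gg A p s t v η w w' x)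
        (g := fun z => z - b) (s := Z.filter (fun z => w' ∈ Wz v c z))
        (fun x _ y _ hxy => sub_left_injective hxy)]
      refine Finset.sum_le_sum_of_subset_of_nonneg ?_ fun x _ _ => gg_nonneg hp s t v η w w' x
      intro x hx
      obtain ⟨z, hz, rfl⟩ := Finset.mem_image.1 hx
      rw [Finset.mem_filter] at hz
      exact Wz_mem (r := r) (by omega) hvt' hz.2 b hb
    refine (Finset.sum_le_sum h1).trans (le_of_eq ?_)
    rw [Finset.sum_const, card_box, nsmul_eq_mul]
    push_cast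
    rfl
  have hsum1 : Summable (fun w' => pm p (hull v t w')) :=
    summable_of_hasFiniteSupport (pm_fin hp v t)
  have hsum2 : Summable (fun w' => if GoodPair A p s t v η w w' then 0 else pm p (hull v t w')) := by
    refine summable_of_hasFiniteSupport ((pm_fin hp v t).subset fun w' hw' => ?_)
    rw [Function.mem_support] at hw'
    by_cases h : GoodPair A p s t v η w w'
    · exact absurd (if_pos h) hw'
    · rw [if_neg h] at hw'
      exact hw'
  have e6 : ∑ w' ∈ WW, ∑ x ∈ hull v t w', gg A p s t v η w w' x ≤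
      η ^ 2 * (4 * 4 ^ c) + (48 * η ^ 4 + 64 / 2 ^ c) * 4 ^ c := by
    refine (Finset.sum_le_sum fun w' _ => gg_sum hp hη w w').trans ?_
    rw [Finset.sum_add_distrib, ← Finset.mul_sum]
    refine add_le_add (mul_le_mul_of_nonneg_left ?_ (sq_nonneg _)) ?_
    · exact (hsum1.sum_le_tsum WW fun w' _ => pm_nonneg hp _).trans (hull_sum_le hp hvt')
    · refine (hsum2.sum_le_tsum WW fun w' _ => ?_).trans hw
      split_ifs
      · exact le_rfl
      · exact pm_nonneg hp _
  have e7 : ∑ z ∈ Z, ∑ w' ∈ Wz v c z, mass (gg A p s t v η w w') r z ≤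
      4 ^ r * (η ^ 2 * (4 * 4 ^ c) + (48 * η ^ 4 + 64 / 2 ^ c) * 4 ^ c) := by
    rw [e4]
    refine (Finset.sum_le_sum fun w' _ => e5 w').trans ?_
    rw [← Finset.mul_sum]
    exact mul_le_mul_of_nonneg_left e6 h4r.le
  rw [e1, div_le_iff₀ h4r]
  refine e3.trans ?_
  have h8 := mul_le_mul_of_nonneg_left e7 (div_nonneg hΛ0 h4c.le)
  refine (add_le_add le_rfl h8).trans (le_of_eq ?_)
  field_simp
  ring

end Pool.Agent.Work.MP_0d53be_an.Full
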