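import Pool.Agent.Work.MP_0d53be_an.Full.F.Gs

/-!
# F/Shift: differences of good points are almost periods of the profile

`shift1`: `x, y ∈ Gs A p s t v η w w'`, `d = x - y`, `|d_i| ≤ 2^v / 4` (written `4 |d_i| ≤ 2^v`),
`η < 1/8`. There is `ζ ∈ win v w` with `ζ + d ∈ win v w` and
`∑_u |kap ζ u - kap (ζ + d) u| ≤ 2 η`.

Proof. The `ζ ∈ win v w` with `ζ + d ∈ win v w` form a box with sides `2^v - |d_i| ≥ (3/4) 2^v`, so
there are at least `(9/16) 4^v` of them. Those with `err ζ x > η` are at most `η 4^v`, and those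
with `err (ζ + d) y > η` are at most `η 4^v` (`bad_anchor`, translation by `d` is injective). Since
`2 η < 9/16` some `ζ` is left; use `kap_close`.

`shift2`: `x₁, y₁, x₂, y₂ ∈ Gs`, `d₁ = x₁ - y₁`, `d₂ = x₂ - y₂`, `8 |d_i| ≤ 2^v` for both. There is
`ζ ∈ win v w` with `ζ + (d₁ + d₂) ∈ win v w` and `∑_u |kap ζ u - kap (ζ + (d₁ + d₂)) u| ≤ 4 η`.

Proof. The `ζ` with `ζ, ζ + d₁, ζ + d₁ + d₂ ∈ win v w`: in each coordinate at least
`2^v - 2^v/4` integers (all three points lie in the interval as soon as `ζ` is at distance at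
least `2^v/4` from both ends on the relevant side: the numbers `0, d₁, d₁ + d₂` lie in an interval
of length at most `2^v/4`), so at least `(9/16) 4^v` points. The bad ones
(`err ζ x₁ > η`, `err (ζ+d₁) y₁ > η`, `err (ζ+d₁) x₂ > η`, `err (ζ+d₁+d₂) y₂ > η`) are at most
`4 η 4^v < (1/2) 4^v`. Apply `kap_close` twice and the triangle inequality.
-/

set_option autoImplicit false

namespace Pool.Agent.Work.MP_0d53be_an.Full

open scoped Pointwise

variable {A : Finset G} {p : G → ℝ}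

private theorem rect_lb {v : ℕ} {a b lo1 hi1 lo2 hi2 : ℤ} (h1 : 4 * (hi1 - lo1) ≤ 2 ^ v)
    (h2 : 4 * (hi2 - lo2) ≤ 2 ^ v) :
    (9 / 16 : ℝ) * 4 ^ v ≤ ((Finset.Ico (a - lo1) (a + 2 ^ v - hi1) ×ˢ
      Finset.Ico (b - lo2) (b + 2 ^ v - hi2)).card : ℝ) := by
  have key : ∀ c lo hi : ℤ, 4 * (hi - lo) ≤ 2 ^ v →
      (3 / 4 : ℝ) * 2 ^ v ≤ (((c + 2 ^ v - hi - (c - lo)).toNat : ℕ) : ℝ) := by
    intro c lo hi h
    have h3 := Int.self_le_toNat (c + 2 ^ v - hi - (c - lo))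
    have h4 : (3 : ℤ) * 2 ^ v ≤ 4 * (((c + 2 ^ v - hi - (c - lo)).toNat : ℕ) : ℤ) := by
      linarith
    have h5 : (3 : ℝ) * 2 ^ v ≤ 4 * (((c + 2 ^ v - hi - (c - lo)).toNat : ℕ) : ℝ) := by
      exact_mod_cast h4
    linarith
  rw [Finset.card_product, Int.card_Ico, Int.card_Ico, Nat.cast_mul]
  have h3 := key a lo1 hi1 h1
  have h4 := key b lo2 hi2 h2
  have h5 : (9 / 16 : ℝ) * 4 ^ v = (3 / 4 * 2 ^ v) * (3 / 4 * 2 ^ v) := by
    have h6 : (4 : ℝ) ^ v = 2 ^ v * 2 ^ v := by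
      rw [← mul_pow]
      norm_num
    rw [h6]
    ring
  rw [h5]
  exact mul_le_mul h3 h4 (by positivity) (Nat.cast_nonneg _)

open Classical in
private theorem bad_shift {s t v : ℕ} {η : ℝ} (hη : 0 < η) {w w' y e : G}
    (hy : y ∈ Gs A p s t v η w w') {T : Finset G} (hT : ∀ ζ ∈ T, ζ + e ∈ win v w) :
    ((T.filter (fun ζ => η < err A p s t (ζ + e) y)).card : ℝ) ≤ η * 4 ^ v := by
  refine le_trans ?_ (bad_anchor hη hy)
  norm_cast
  refine Finset.card_le_card_of_injOn (fun ζ => ζ + e) (fun ζ hζ => ?_) (fun ζ _ ξ _ h => ?_)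
  · have h1 := Finset.mem_filter.1 (Finset.mem_coe.1 hζ)
    exact Finset.mem_coe.2 (Finset.mem_filter.2 ⟨hT ζ h1.1, h1.2⟩)
  · exact add_right_cancel h

private theorem win_mem {v : ℕ} {w ζ e : G} {lo1 hi1 lo2 hi2 : ℤ} (h1 : lo1 ≤ e.1) (h2 : e.1 ≤ hi1)
    (h3 : lo2 ≤ e.2) (h4 : e.2 ≤ hi2) (hζ : ζ ∈ Finset.Ico (2 ^ v * w.1 - lo1) (2 ^ v * w.1 + 2 ^ v - hi1) ×ˢ
      Finset.Ico (2 ^ v * w.2 - lo2) (2 ^ v * w.2 + 2 ^ v - hi2)) : ζ + e ∈ win v w := by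
  unfold win
  rw [Finset.mem_product, Finset.mem_Ico, Finset.mem_Ico] at hζ ⊢
  rw [Prod.fst_add, Prod.snd_add]
  refine ⟨⟨?_, ?_⟩, ?_, ?_⟩ <;> linarith [hζ.1.1, hζ.1.2, hζ.2.1, hζ.2.2]

theorem shift1 {s t v : ℕ} {η : ℝ} (hη : 0 < η) (h8 : η < 1 / 8) {w w' x y : G}
    (hx : x ∈ Gs A p s t v η w w') (hy : y ∈ Gs A p s t v η w w')
    (h1 : 4 * |(x - y).1| ≤ 2 ^ v) (h2 : 4 * |(x - y).2| ≤ 2 ^ v) :
    ∃ ζ ∈ win v w, ζ + (x - y) ∈ win v w ∧
      ∑ u ∈ box (t - s), |kap p s t ζ u - kap p s t (ζ + (x - y)) u| ≤ 2 * η := by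
  classical
  obtain ⟨d, hd⟩ : ∃ d, d = x - y := ⟨_, rfl⟩
  rw [← hd] at h1 h2 ⊢
  have a1 := le_abs_self d.1
  have a2 := neg_abs_le d.1
  have a3 := le_abs_self d.2
  have a4 := neg_abs_le d.2
  have b1 : 4 * (max 0 d.1 - min 0 d.1) ≤ 2 ^ v := by
    rcases le_total 0 d.1 with h | h
    · rw [max_eq_right h, min_eq_left h]
      linarith
    · rw [max_eq_left h, min_eq_right h]
      linarith
  have b2 : 4 * (max 0 d.2 - min 0 d.2) ≤ 2 ^ v := by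
    rcases le_total 0 d.2 with h | h
    · rw [max_eq_right h, min_eq_left h]
      linarith
    · rw [max_eq_left h, min_eq_right h]
      linarith
  obtain ⟨T, hT⟩ : ∃ T, T = Finset.Ico (2 ^ v * w.1 - min 0 d.1) (2 ^ v * w.1 + 2 ^ v - max 0 d.1) ×ˢ
      Finset.Ico (2 ^ v * w.2 - min 0 d.2) (2 ^ v * w.2 + 2 ^ v - max 0 d.2) := ⟨_, rfl⟩
  have hcard : (9 / 16 : ℝ) * 4 ^ v ≤ (T.card : ℝ) := by
    rw [hT]
    exact rect_lb b1 b2
  have hT0 : ∀ ζ ∈ T, ζ + 0 ∈ win v w := by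
    intro ζ hζ
    rw [hT] at hζ
    exact win_mem (min_le_left _ _) (le_max_left _ _) (min_le_left _ _) (le_max_left _ _) hζ
  have hTd : ∀ ζ ∈ T, ζ + d ∈ win v w := by
    intro ζ hζ
    rw [hT] at hζ
    exact win_mem (min_le_right _ _) (le_max_right _ _) (min_le_right _ _) (le_max_right _ _) hζ
  have c1 := bad_shift hη hx hT0
  have c2 := bad_shift hη hy hTd
  have hex : ∃ ζ ∈ T, err A p s t (ζ + 0) x ≤ η ∧ err A p s t (ζ + d) y ≤ η := by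
    by_contra hcon
    push Not at hcon
    have hsub : T ⊆ T.filter (fun ζ => η < err A p s t (ζ + 0) x) ∪
        T.filter (fun ζ => η < err A p s t (ζ + d) y) := by
      intro ζ hζ
      rw [Finset.mem_union, Finset.mem_filter, Finset.mem_filter]
      by_cases h : err A p s t (ζ + 0) x ≤ η
      · exact Or.inr ⟨hζ, hcon ζ hζ h⟩
      · exact Or.inl ⟨hζ, not_le.1 h⟩
    have h5 := (Finset.card_le_card hsub).trans (Finset.card_union_le _ _)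
    have h6 : (T.card : ℝ) ≤ ((T.filter (fun ζ => η < err A p s t (ζ + 0) x)).card : ℝ) +
        ((T.filter (fun ζ => η < err A p s t (ζ + d) y)).card : ℝ) := by exact_mod_cast h5
    have h7 : (0 : ℝ) < 4 ^ v := by positivity
    nlinarith
  obtain ⟨ζ, hζ, e1, e2⟩ := hex
  rw [add_zero] at e1
  have h0 := hT0 ζ hζ
  rw [add_zero] at h0
  refine ⟨ζ, h0, hTd ζ hζ, ?_⟩
  rw [hd] at e2 ⊢
  exact kap_close e1 e2

theorem shift2 {s t v : ℕ} {η : ℝ} (hη : 0 < η) (h8 : η < 1 / 8) {w w' x₁ y₁ x₂ y₂ : G}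
    (hx₁ : x₁ ∈ Gs A p s t v η w w') (hy₁ : y₁ ∈ Gs A p s t v η w w')
    (hx₂ : x₂ ∈ Gs A p s t v η w w') (hy₂ : y₂ ∈ Gs A p s t v η w w')
    (h1 : 8 * |(x₁ - y₁).1| ≤ 2 ^ v) (h2 : 8 * |(x₁ - y₁).2| ≤ 2 ^ v)
    (h3 : 8 * |(x₂ - y₂).1| ≤ 2 ^ v) (h4 : 8 * |(x₂ - y₂).2| ≤ 2 ^ v) :
    ∃ ζ ∈ win v w, ζ + ((x₁ - y₁) + (x₂ - y₂)) ∈ win v w ∧
      ∑ u ∈ box (t - s), |kap p s t ζ u - kap p s t (ζ + ((x₁ - y₁) + (x₂ - y₂))) u| ≤ 4 * η := by
  classical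
  obtain ⟨d, hd⟩ : ∃ d, d = x₁ - y₁ := ⟨_, rfl⟩
  obtain ⟨e, he⟩ : ∃ e, e = x₂ - y₂ := ⟨_, rfl⟩
  rw [← hd] at h1 h2 ⊢
  rw [← he] at h3 h4 ⊢
  have key : ∀ a b : ℤ, 8 * |a| ≤ 2 ^ v → 8 * |b| ≤ 2 ^ v →
      4 * (max 0 (max a (a + b)) - min 0 (min a (a + b))) ≤ 2 ^ v := by
    intro a b ha hb
    have a1 := le_abs_self a
    have a2 := neg_abs_le a
    have a3 := le_abs_self b
    have a4 := neg_abs_le b
    generalize (2 : ℤ) ^ v = N at *
    generalize |a| = a' at *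
    generalize |b| = b' at *
    omega
  obtain ⟨T, hT⟩ : ∃ T, T = Finset.Ico (2 ^ v * w.1 - min 0 (min d.1 (d.1 + e.1)))
      (2 ^ v * w.1 + 2 ^ v - max 0 (max d.1 (d.1 + e.1))) ×ˢ
      Finset.Ico (2 ^ v * w.2 - min 0 (min d.2 (d.2 + e.2)))
      (2 ^ v * w.2 + 2 ^ v - max 0 (max d.2 (d.2 + e.2))) := ⟨_, rfl⟩
  have hcard : (9 / 16 : ℝ) * 4 ^ v ≤ (T.card : ℝ) := by
    rw [hT]
    exact rect_lb (key _ _ h1 h3) (key _ _ h2 h4)
  have hT0 : ∀ ζ ∈ T, ζ + 0 ∈ win v w := by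
    intro ζ hζ
    rw [hT] at hζ
    exact win_mem (min_le_left _ _) (le_max_left _ _) (min_le_left _ _) (le_max_left _ _) hζ
  have hTd : ∀ ζ ∈ T, ζ + d ∈ win v w := by
    intro ζ hζ
    rw [hT] at hζ
    exact win_mem ((min_le_right _ _).trans (min_le_left _ _))
      ((le_max_left _ _).trans (le_max_right _ _)) ((min_le_right _ _).trans (min_le_left _ _))
      ((le_max_left _ _).trans (le_max_right _ _)) hζ
  have hTe : ∀ ζ ∈ T, ζ + (d + e) ∈ win v w := by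
    intro ζ hζ
    rw [hT] at hζ
    exact win_mem ((min_le_right _ _).trans (min_le_right _ _))
      ((le_max_right _ _).trans (le_max_right _ _)) ((min_le_right _ _).trans (min_le_right _ _))
      ((le_max_right _ _).trans (le_max_right _ _)) hζ
  have c1 := bad_shift hη hx₁ hT0
  have c2 := bad_shift hη hy₁ hTd
  have c3 := bad_shift hη hx₂ hTd
  have c4 := bad_shift hη hy₂ hTe
  have hex : ∃ ζ ∈ T, err A p s t (ζ + 0) x₁ ≤ η ∧ err A p s t (ζ + d) y₁ ≤ η ∧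
      err A p s t (ζ + d) x₂ ≤ η ∧ err A p s t (ζ + (d + e)) y₂ ≤ η := by
    by_contra hcon
    push Not at hcon
    have hsub : T ⊆ ((T.filter (fun ζ => η < err A p s t (ζ + 0) x₁) ∪
        T.filter (fun ζ => η < err A p s t (ζ + d) y₁)) ∪
        T.filter (fun ζ => η < err A p s t (ζ + d) x₂)) ∪
        T.filter (fun ζ => η < err A p s t (ζ + (d + e)) y₂) := by
      intro ζ hζ
      rw [Finset.mem_union, Finset.mem_union, Finset.mem_union, Finset.mem_filter,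
        Finset.mem_filter, Finset.mem_filter, Finset.mem_filter]
      by_cases h : err A p s t (ζ + 0) x₁ ≤ η
      · by_cases h' : err A p s t (ζ + d) y₁ ≤ η
        · by_cases h'' : err A p s t (ζ + d) x₂ ≤ η
          · exact Or.inr ⟨hζ, hcon ζ hζ h h' h''⟩
          · exact Or.inl (Or.inr ⟨hζ, not_le.1 h''⟩)
        · exact Or.inl (Or.inl (Or.inr ⟨hζ, not_le.1 h'⟩))
      · exact Or.inl (Or.inl (Or.inl ⟨hζ, not_le.1 h⟩))
    have h5 := (Finset.card_le_card hsub).trans ((Finset.card_union_le _ _).trans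
      (Nat.add_le_add_right ((Finset.card_union_le _ _).trans
        (Nat.add_le_add_right (Finset.card_union_le _ _) _)) _))
    have h6 : (T.card : ℝ) ≤ ((T.filter (fun ζ => η < err A p s t (ζ + 0) x₁)).card : ℝ) +
        ((T.filter (fun ζ => η < err A p s t (ζ + d) y₁)).card : ℝ) +
        ((T.filter (fun ζ => η < err A p s t (ζ + d) x₂)).card : ℝ) +
        ((T.filter (fun ζ => η < err A p s t (ζ + (d + e)) y₂)).card : ℝ) := by exact_mod_cast h5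
    have h7 : (0 : ℝ) < 4 ^ v := by positivity
    nlinarith
  obtain ⟨ζ, hζ, e1, e2, e3, e4⟩ := hex
  rw [add_zero] at e1
  have h0 := hT0 ζ hζ
  rw [add_zero] at h0
  refine ⟨ζ, h0, hTe ζ hζ, ?_⟩
  have f1 : ∑ u ∈ box (t - s), |kap p s t ζ u - kap p s t (ζ + d) u| ≤ 2 * η := by
    rw [hd] at e2 ⊢
    exact kap_close e1 e2
  have f2 : ∑ u ∈ box (t - s), |kap p s t (ζ + d) u - kap p s t (ζ + (d + e)) u| ≤ 2 * η := by
    rw [← add_assoc] at e4 ⊢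
    rw [he] at e4 ⊢
    exact kap_close e3 e4
  have f3 : ∑ u ∈ box (t - s), |kap p s t ζ u - kap p s t (ζ + (d + e)) u| ≤
      ∑ u ∈ box (t - s), |kap p s t ζ u - kap p s t (ζ + d) u| +
        ∑ u ∈ box (t - s), |kap p s t (ζ + d) u - kap p s t (ζ + (d + e)) u| := by
    rw [← Finset.sum_add_distrib]
    exact Finset.sum_le_sum fun u _ => abs_sub_le _ _ _
  linarith

end Pool.Agent.Work.MP_0d53be_an.Full
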